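import Pool.Agent.Y547.UE.HD

/-!
# Points of diagonal cubic hypersurfaces over finite fields
-/

set_option autoImplicit false
set_option linter.unusedSectionVars false

namespace Pool.Agent.H733.CB

open Finset

section field

variable {F : Type} [Field F] [Fintype F]

/-- a cubic character -/
structure Cub (χ : MulChar F ℂ) : Prop where
  ne : χ ≠ 1
  cube : χ ^ 3 = 1

variable {χ : MulChar F ℂ}

theorem Cub.ap3 (h : Cub χ) {t : F} (ht : t ≠ 0) : χ t ^ 3 = 1 := by
  have h1 : (χ ^ 3) t = 1 := by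
    rw [h.cube]
    exact MulChar.one_apply (isUnit_iff_ne_zero.2 ht)
  rwa [MulChar.pow_apply' χ (by norm_num)] at h1

theorem Cub.inv_eq (h : Cub χ) : χ⁻¹ = χ ^ 2 := by
  rw [inv_eq_iff_mul_eq_one]
  rw [← h.cube]
  exact (pow_succ' χ 2).symm

theorem Cub.inv_ap (h : Cub χ) (t : F) : χ⁻¹ t = χ t ^ 2 := by
  rw [h.inv_eq, MulChar.pow_apply' χ (by norm_num)]

theorem Cub.inv (h : Cub χ) : Cub χ⁻¹ :=
  ⟨fun h1 => h.ne (inv_eq_one.1 h1), by rw [inv_pow, h.cube, inv_one]⟩

theorem Cub.neg_one (h : Cub χ) : χ (-1) = 1 := by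
  have h1 := h.ap3 (t := -1) (by simp)
  rw [← map_pow] at h1
  have e : (-1 : F) ^ 3 = -1 := by ring
  rwa [e] at h1

theorem Cub.card (h : Cub χ) : Fintype.card F % 3 = 1 := by
  classical
  have h1 : orderOf χ = 3 := orderOf_eq_prime h.cube h.ne
  have h2 := MulChar.orderOf_dvd_card_sub_one (F := F) χ
  rw [h1] at h2
  have := Fintype.one_lt_card (α := F)
  omega

/-- a primitive cube root of unity, a generator -/
theorem exists_gen : ∃ g : Fˣ, (∀ u : Fˣ, ∃ m : ℕ, g ^ m = u) ∧ orderOf g = Fintype.card F - 1 := by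
  classical
  obtain ⟨g, hg⟩ := IsCyclic.exists_monoid_generator (α := Fˣ)
  refine ⟨g, fun u => ?_, ?_⟩
  · obtain ⟨m, hm⟩ := hg u
    exact ⟨m, hm⟩
  · rw [orderOf_eq_card_of_forall_mem_powers hg, Nat.card_eq_fintype_card, Fintype.card_units]

theorem Cub.exists_cube (h : Cub χ) {t : F} (ht : t ≠ 0) (h1 : χ t = 1) : ∃ x : F, x ^ 3 = t := by
  obtain ⟨g, hg, -⟩ := exists_gen (F := F)
  obtain ⟨m, hm⟩ := hg (Units.mk0 t ht)
  have hw : χ (g : F) ≠ 1 := by
    intro hw
    apply h.ne
    ext u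
    obtain ⟨k, hk⟩ := hg u
    rw [← hk, Units.val_pow_eq_pow_val, map_pow, hw, one_pow, ← Units.val_pow_eq_pow_val,
      MulChar.one_apply_coe]
  have h3 : χ (g : F) ^ 3 = 1 := h.ap3 g.ne_zero
  have ho : orderOf (χ (g : F)) = 3 := orderOf_eq_prime h3 hw
  have ht' : t = (g : F) ^ m := by
    rw [← Units.val_pow_eq_pow_val, hm, Units.val_mk0]
  rw [ht', map_pow] at h1
  obtain ⟨k, rfl⟩ : 3 ∣ m := by
    rw [← ho]
    exact orderOf_dvd_of_pow_eq_one h1
  exact ⟨(g : F) ^ k, by rw [ht', ← pow_mul, mul_comm]⟩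

theorem exists_root (h : Fintype.card F % 3 = 1) : ∃ ρ : F, IsPrimitiveRoot ρ 3 := by
  obtain ⟨g, -, ho⟩ := exists_gen (F := F)
  have h2 : 1 < Fintype.card F := Fintype.one_lt_card
  obtain ⟨k, hk⟩ : 3 ∣ Fintype.card F - 1 := by omega
  have h3 := IsPrimitiveRoot.orderOf g
  rw [ho] at h3
  have h4 : IsPrimitiveRoot (g ^ k) 3 := by
    refine h3.pow (by omega) ?_
    rw [hk]; ring
  exact ⟨_, (IsPrimitiveRoot.coe_units_iff).2 h4⟩

/-- the number of the cube roots -/
theorem Cub.count (h : Cub χ) [DecidableEq F] (t : F) :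
    ((univ.filter fun x : F => x ^ 3 = t).card : ℂ) = 1 + χ t + χ⁻¹ t := by
  rcases eq_or_ne t 0 with rfl | ht
  · have e : (univ.filter fun x : F => x ^ 3 = 0) = {0} := by
      ext x
      simp
    rw [e, card_singleton, MulChar.map_zero, MulChar.map_zero]
    simp
  · rw [h.inv_ap]
    by_cases h1 : χ t = 1
    · obtain ⟨x, hx⟩ := h.exists_cube ht h1
      obtain ⟨ρ, hρ⟩ := exists_root h.card
      have hx0 : x ≠ 0 := by
        rintro rfl
        apply ht
        rw [← hx]
        simp
      have h3 : ρ ^ 3 = 1 := hρ.pow_eq_one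
      have hne : ρ ≠ 1 := hρ.ne_one (by norm_num)
      have hs : ρ ^ 2 + ρ + 1 = 0 := by
        have h5 : (ρ - 1) * (ρ ^ 2 + ρ + 1) = 0 := by linear_combination h3
        exact (mul_eq_zero.1 h5).resolve_left (sub_ne_zero.2 hne)
      have h0 : ρ ≠ 0 := by
        rintro rfl
        simp at h3
      have e : (univ.filter fun y : F => y ^ 3 = t) = {x, ρ * x, ρ ^ 2 * x} := by
        ext y
        simp only [mem_filter, mem_univ, true_and, mem_insert, mem_singleton]
        constructor
        · intro hy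
          have h6 : (y - x) * ((y - ρ * x) * (y - ρ ^ 2 * x)) = 0 := by
            linear_combination hy - ρ ^ 3 * hx - t * h3 + (-x * y ^ 2 + ρ * x ^ 2 * y) * hs
          rcases mul_eq_zero.1 h6 with h7 | h7
          · exact Or.inl (sub_eq_zero.1 h7)
          · rcases mul_eq_zero.1 h7 with h8 | h8
            · exact Or.inr (Or.inl (sub_eq_zero.1 h8))
            · exact Or.inr (Or.inr (sub_eq_zero.1 h8))
        · rintro (rfl | rfl | rfl)
          · exact hx
          · rw [mul_pow, h3, one_mul, hx]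
          · rw [mul_pow, ← pow_mul, mul_comm 2 3, pow_mul, h3, one_pow, one_mul, hx]
      have d1 : x ≠ ρ * x := fun h8 => hne (mul_right_cancel₀ hx0 (by rw [one_mul]; exact h8.symm))
      have d2 : x ≠ ρ ^ 2 * x := fun h8 => by
        have h9 : ρ ^ 2 = 1 := mul_right_cancel₀ hx0 (by rw [one_mul]; exact h8.symm)
        exact hρ.pow_ne_one_of_pos_of_lt (by norm_num) (by norm_num) h9
      have d3 : ρ * x ≠ ρ ^ 2 * x := fun h8 => by
        have h9 : ρ = ρ ^ 2 := mul_right_cancel₀ hx0 h8
        apply hne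
        have h10 : ρ * (ρ - 1) = 0 := by linear_combination -h9
        exact sub_eq_zero.1 ((mul_eq_zero.1 h10).resolve_left h0)
      rw [e, card_insert_of_notMem (by simp [d1, d2]), card_insert_of_notMem (by simp [d3]),
        card_singleton, h1]
      norm_num
    · have e : (univ.filter fun y : F => y ^ 3 = t) = ∅ := by
        rw [filter_eq_empty_iff]
        intro x _ hx
        apply h1
        have hx0 : x ≠ 0 := by
          rintro rfl
          apply ht
          rw [← hx]
          simp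
        rw [← hx, map_pow]
        exact h.ap3 hx0
      rw [e, card_empty]
      have h3 := h.ap3 ht
      have h5 : (χ t - 1) * (1 + χ t + χ t ^ 2) = 0 := by linear_combination h3
      have h6 := (mul_eq_zero.1 h5).resolve_left (sub_ne_zero.2 h1)
      rw [h6]
      simp

end field

end Pool.Agent.H733.CB
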