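import Pool.Agent.Y703.CT.Defs

/-!
# The class is closed under `a b² ↦ a² b`
-/

set_option autoImplicit false
set_option linter.unusedSectionVars false
set_option linter.style.haveILetI false

namespace Pool.Agent.H733.CB

open Finset
open Pool.Agent.Y703.CT (Cls NoSplit Base)

/-- not divisible by the cube of a prime -/
def CF (n : ℕ) : Prop := n ≠ 0 ∧ ∀ p : ℕ, p.Prime → ¬ p ^ 3 ∣ n

/-- the product of the prime factors -/
def rd (n : ℕ) : ℕ := ∏ p ∈ n.primeFactors, p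

/-- the dual number -/
def du (n : ℕ) : ℕ := ∏ p ∈ n.primeFactors, p ^ (3 - n.factorization p)

theorem CF.le {n : ℕ} (h : CF n) {p : ℕ} (hp : p.Prime) : n.factorization p ≤ 2 := by
  by_contra h1
  push Not at h1
  exact h.2 p hp ((hp.pow_dvd_iff_le_factorization h.1).2 (by omega))

theorem CF.mul_du {n : ℕ} (h : CF n) : n * du n = rd n ^ 3 := by
  have h1 : n = ∏ p ∈ n.primeFactors, p ^ n.factorization p :=
    (Nat.prod_factorization_pow_eq_self h.1).symm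
  have h0 : n * du n = (∏ p ∈ n.primeFactors, p ^ n.factorization p) * du n :=
    congrArg (fun m => m * du n) h1
  rw [h0]
  unfold du rd
  rw [← prod_mul_distrib, ← prod_pow]
  refine prod_congr rfl fun p hp => ?_
  have h2 := h.le (Nat.prime_of_mem_primeFactors hp)
  rw [← pow_add]
  congr 1
  omega

theorem du_ne (n : ℕ) : du n ≠ 0 :=
  prod_ne_zero_iff.2 fun _ hp => pow_ne_zero _ (Nat.prime_of_mem_primeFactors hp).ne_zero

theorem CF.dvd_du {n : ℕ} (h : CF n) {p : ℕ} (hp : p.Prime) : p ∣ du n ↔ p ∣ n := by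
  unfold du
  rw [hp.prime.dvd_finsetProd_iff]
  constructor
  · rintro ⟨q, hq, h1⟩
    have hq' := Nat.prime_of_mem_primeFactors hq
    rw [(Nat.prime_dvd_prime_iff_eq hp hq').1 (hp.dvd_of_dvd_pow h1)]
    exact Nat.dvd_of_mem_primeFactors hq
  · intro h1
    refine ⟨p, Nat.mem_primeFactors.2 ⟨hp, h1, h.1⟩, dvd_pow_self p ?_⟩
    have := h.le hp
    omega

theorem CF.pf {n : ℕ} (h : CF n) : (du n).primeFactors = n.primeFactors := by
  ext p
  rw [Nat.mem_primeFactors, Nat.mem_primeFactors]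
  constructor
  · rintro ⟨hp, h1, -⟩
    exact ⟨hp, (h.dvd_du hp).1 h1, h.1⟩
  · rintro ⟨hp, h1, -⟩
    exact ⟨hp, (h.dvd_du hp).2 h1, du_ne n⟩

theorem CF.rd_du {n : ℕ} (h : CF n) : rd (du n) = rd n := by
  unfold rd
  rw [h.pf]

theorem rd_four {n p : ℕ} (hp : p.Prime) (h : p ^ 4 ∣ rd n ^ 3) : False := by
  have h1 : p ∣ rd n := hp.dvd_of_dvd_pow ((dvd_pow_self p (by norm_num : 4 ≠ 0)).trans h)
  unfold rd at h1 h
  rw [hp.prime.dvd_finsetProd_iff] at h1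
  obtain ⟨q, hq, h2⟩ := h1
  have hq' := Nat.prime_of_mem_primeFactors hq
  have hpq := (Nat.prime_dvd_prime_iff_eq hp hq').1 h2
  subst hpq
  rw [← mul_prod_erase _ _ hq, mul_pow, pow_succ] at h
  have h3 : p ∣ (∏ x ∈ n.primeFactors.erase p, x) ^ 3 :=
    Nat.dvd_of_mul_dvd_mul_left (pow_pos hp.pos 3) h
  have h4 := hp.dvd_of_dvd_pow h3
  rw [hp.prime.dvd_finsetProd_iff] at h4
  obtain ⟨x, hx, h5⟩ := h4
  have h6 := (Nat.prime_dvd_prime_iff_eq hp
    (Nat.prime_of_mem_primeFactors (mem_erase.1 hx).2)).1 h5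
  exact (mem_erase.1 hx).1 h6.symm

theorem CF.du {n : ℕ} (h : CF n) : CF (du n) := by
  refine ⟨du_ne n, fun p hp h1 => ?_⟩
  have h2 : p ∣ n := (h.dvd_du hp).1 ((dvd_pow_self p (by norm_num)).trans h1)
  refine rd_four (n := n) hp ?_
  rw [← h.mul_du, pow_succ', ]
  exact mul_dvd_mul h2 h1

theorem CF.of_dvd {n m : ℕ} (h : CF n) (hm : m ∣ n) : CF m :=
  ⟨fun h0 => h.1 (by rw [h0] at hm; exact zero_dvd_iff.1 hm), fun p hp h1 => h.2 p hp (h1.trans hm)⟩

theorem CF.du_du {n : ℕ} (h : CF n) : CB.du (CB.du n) = n := by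
  have h1 := h.mul_du
  have h2 := h.du.mul_du
  rw [h.rd_du, ← h1, mul_comm n] at h2
  exact Nat.eq_of_mul_eq_mul_left (Nat.pos_of_ne_zero (du_ne n)) h2

theorem cf_of_cls {D : ℕ} (h : Cls D) : CF D := ⟨h.1.1, h.1.2.2⟩

theorem rd_coprime {n : ℕ} (h3 : ¬ 3 ∣ n) : ¬ 3 ∣ rd n := by
  intro h1
  unfold rd at h1
  rw [Nat.prime_three.prime.dvd_finsetProd_iff] at h1
  obtain ⟨q, hq, h2⟩ := h1
  rw [← (Nat.prime_dvd_prime_iff_eq Nat.prime_three (Nat.prime_of_mem_primeFactors hq)).1 h2] at hq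
  exact h3 (Nat.dvd_of_mem_primeFactors hq)

theorem cls_du {D : ℕ} (h : Cls D) : Cls (du D) := by
  have hc := cf_of_cls h
  obtain ⟨⟨h0, h3, -⟩, h1, h8, q, hq, hq3, hqD, hall⟩ := h
  have h3' : ¬ 3 ∣ du D := fun h4 => h3 ((hc.dvd_du Nat.prime_three).1 h4)
  have hmod : D * du D % 9 = 1 ∨ D * du D % 9 = 8 := by
    rw [hc.mul_du]
    have h5 := rd_coprime h3
    have h6 : rd D % 9 ≠ 0 ∧ rd D % 9 ≠ 3 ∧ rd D % 9 ≠ 6 := by omega
    rw [Nat.pow_mod]
    have h7 : rd D % 9 < 9 := Nat.mod_lt _ (by norm_num)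
    generalize rd D % 9 = x at h6 h7
    interval_cases x <;> simp_all
  have key : ∀ x y : ℕ, x < 9 → y < 9 → x * y % 9 = 1 ∨ x * y % 9 = 8 → x ≠ 1 → x ≠ 8 →
      y ≠ 1 ∧ y ≠ 8 := by
    intro x y hx hy h1 h2 h3
    interval_cases x <;> omega
  have h9 := key (D % 9) (du D % 9) (Nat.mod_lt _ (by norm_num)) (Nat.mod_lt _ (by norm_num))
    (by rwa [← Nat.mul_mod]) h1 h8
  exact ⟨⟨du_ne D, h3', hc.du.2⟩, h9.1, h9.2, q, hq, hq3, (hc.dvd_du hq).2 hqD,
    fun p hp hpD hpq => hall p hp ((hc.dvd_du hp).1 hpD) hpq⟩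

theorem rd_prod {d : ZMod 3 → ℕ} (h0 : ∀ c, d c ≠ 0) (h : ∀ c c', c ≠ c' → Nat.Coprime (d c) (d c')) :
    rd (∏ c, d c) = ∏ c, rd (d c) := by
  have e1 : ∏ c, d c = d 0 * d 1 * d 2 := Fin.prod_univ_three d
  have e2 : ∏ c, rd (d c) = rd (d 0) * rd (d 1) * rd (d 2) := Fin.prod_univ_three fun c => rd (d c)
  have hm : ∀ m n : ℕ, m ≠ 0 → n ≠ 0 → Nat.Coprime m n → rd (m * n) = rd m * rd n := by
    intro m n hm hn hmn
    unfold rd
    rw [Nat.primeFactors_mul hm hn, prod_union hmn.disjoint_primeFactors]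
  rw [e1, e2, hm _ _ (mul_ne_zero (h0 0) (h0 1)) (h0 2)
    (Nat.Coprime.mul_left (h 0 2 (by decide)) (h 1 2 (by decide))),
    hm _ _ (h0 0) (h0 1) (h 0 1 (by decide))]

theorem noSplit_du {D : ℕ} (hC : Cls D) (h : NoSplit D) : NoSplit (du D) := by
  intro d hd hcop hcub
  have hc := cf_of_cls hC
  have hdv : ∀ c, d c ∣ du D := fun c => by
    rw [← hd]
    exact dvd_prod_of_mem d (mem_univ c)
  have hcf : ∀ c, CF (d c) := fun c => hc.du.of_dvd (hdv c)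
  have hprod : ∏ c, du (d c) = D := by
    have h1 : (∏ c, du (d c)) * du D = D * du D := by
      rw [hc.mul_du, ← hc.rd_du, ← hd, rd_prod (fun c => (hcf c).1) hcop, ← prod_mul_distrib,
        ← prod_pow]
      refine prod_congr rfl fun c _ => ?_
      rw [mul_comm, (hcf c).mul_du]
    exact Nat.eq_of_mul_eq_mul_right (Nat.pos_of_ne_zero (du_ne D)) h1
  have hcop' : ∀ c c', c ≠ c' → Nat.Coprime (du (d c)) (du (d c')) := by
    intro c c' hcc
    refine Nat.coprime_of_dvd fun p hp h1 h2 => ?_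
    have h3 := ((hcf c).dvd_du hp).1 h1
    have h4 := ((hcf c').dvd_du hp).1 h2
    exact Nat.not_coprime_of_dvd_of_dvd hp.one_lt h3 h4 (hcop c c' hcc)
  obtain ⟨c, hcc⟩ := h (fun c => du (d c)) hprod hcop' (by
    intro c p hp hpc
    haveI := Fact.mk hp
    have hpd := ((hcf c).dvd_du hp).1 hpc
    obtain ⟨y, hy⟩ := hcub c p hp hpd
    have hn : ∀ c', c' ≠ c → ((d c' : ℕ) : ZMod p) ≠ 0 := by
      intro c' hc' h5
      rw [ZMod.natCast_eq_zero_iff] at h5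
      exact Nat.not_coprime_of_dvd_of_dvd hp.one_lt h5 hpd (hcop c' c hc')
    have g1 : c + 1 ≠ c := by
      intro h6
      have h7 : (1 : ZMod 3) = 0 := add_eq_left.1 h6
      exact absurd h7 (by decide)
    have g2 : c + 2 ≠ c := by
      intro h6
      have h7 : (2 : ZMod 3) = 0 := add_eq_left.1 h6
      exact absurd h7 (by decide)
    have k1 := hn _ g1
    have k2 := hn _ g2
    have m1 : ((d (c + 1) : ℕ) : ZMod p) * (du (d (c + 1)) : ZMod p) = (rd (d (c + 1)) : ZMod p) ^ 3 := by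
      have := congrArg (fun n : ℕ => (n : ZMod p)) (hcf (c + 1)).mul_du
      push_cast at this
      exact this
    have m2 : ((d (c + 2) : ℕ) : ZMod p) * (du (d (c + 2)) : ZMod p) = (rd (d (c + 2)) : ZMod p) ^ 3 := by
      have := congrArg (fun n : ℕ => (n : ZMod p)) (hcf (c + 2)).mul_du
      push_cast at this
      exact this
    have hy' : ((d (c + 1) : ℕ) : ZMod p) * (d (c + 2) : ZMod p) ^ 2 = (y : ZMod p) ^ 3 := by
      have h5 := (ZMod.intCast_zmod_eq_zero_iff_dvd _ p).2 hy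
      push_cast at h5
      linear_combination h5
    have hy0 : (y : ZMod p) ≠ 0 := by
      intro h6
      rw [h6] at hy'
      have h7 : ((d (c + 1) : ℕ) : ZMod p) * (d (c + 2) : ZMod p) ^ 2 ≠ 0 :=
        mul_ne_zero k1 (pow_ne_zero 2 k2)
      exact h7 (by rw [hy']; simp)
    set x : ZMod p := (rd (d (c + 1)) : ZMod p) * (rd (d (c + 2)) : ZMod p) ^ 2 / y with hx
    refine ⟨(x.val : ℤ), (ZMod.intCast_zmod_eq_zero_iff_dvd _ p).1 ?_⟩
    push_cast
    rw [ZMod.natCast_zmod_val, sub_eq_zero, hx, div_pow, eq_div_iff (pow_ne_zero 3 hy0), ← hy']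
    linear_combination ((d (c + 2) : ZMod p) ^ 2 * (du (d (c + 2)) : ZMod p) ^ 2) * m1 +
      (rd (d (c + 1)) : ZMod p) ^ 3 * ((d (c + 2) : ZMod p) * (du (d (c + 2)) : ZMod p) +
        (rd (d (c + 2)) : ZMod p) ^ 3) * m2)
  refine ⟨c, fun c' hc' => ?_⟩
  have h5 : du (d c') = 1 := hcc c' hc'
  by_contra h6
  obtain ⟨p, hp, hpd⟩ := Nat.exists_prime_and_dvd h6
  have h7 := ((hcf c').dvd_du hp).2 hpd
  rw [h5] at h7
  exact hp.one_lt.ne' (Nat.dvd_one.1 h7)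

/-- `D² = D' c³` -/
theorem sq_eq {D : ℕ} (hc : CF D) : ∃ c : ℕ, c ≠ 0 ∧ D ^ 2 = du D * c ^ 3 := by
  have h1 : rd D ∣ D := by
    unfold rd
    exact Nat.prod_primeFactors_dvd D
  obtain ⟨c, hcD⟩ := h1
  have hc0 : c ≠ 0 := by
    rintro rfl
    exact hc.1 (by rw [hcD, mul_zero])
  refine ⟨c, hc0, ?_⟩
  have h2 := hc.mul_du
  have hD : 0 < D := Nat.pos_of_ne_zero hc.1
  apply Nat.eq_of_mul_eq_mul_left hD
  calc D * D ^ 2 = D ^ 3 := by ring
    _ = (rd D * c) ^ 3 := by rw [← hcD]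
    _ = rd D ^ 3 * c ^ 3 := by ring
    _ = D * (du D * c ^ 3) := by rw [← h2]; ring

end Pool.Agent.H733.CB
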