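import Pool.Agent.H733.CB.Sum

/-!
# The curves `y² + M y = x³`, extensions of finite fields
-/

set_option autoImplicit false
set_option linter.unusedSectionVars false

namespace Pool.Agent.H733.CB

open Finset
open Pool.Agent.Y145.KS (psi psi_apply psi_ne_one)
open Pool.Agent.Y547.UE (nch nch_apply nch_ne_one nch_mul gs_nch)

section

variable {F : Type} [Field F] [Fintype F] {χ : MulChar F ℂ} {ψ : AddChar F ℂ}

theorem q_ne : (Fintype.card F : ℂ) ≠ 0 := by exact_mod_cast Fintype.card_ne_zero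

theorem Cub.gs_ne (h : Cub χ) (hψ : ψ ≠ 1) : gaussSum χ ψ ≠ 0 := by
  intro h0
  have h1 := h.gs_mul hψ
  rw [h0, zero_mul] at h1
  exact q_ne h1.symm

theorem Cub.jac (h : Cub χ) (hψ : ψ ≠ 1) :
    jacobiSum χ χ = gaussSum χ ψ ^ 3 / (Fintype.card F : ℂ) := by
  have h1 : χ * χ = χ⁻¹ := by rw [h.inv_eq, pow_two]
  have h2 := jacobiSum_mul_nontrivial (χ := χ) (φ := χ) (by rw [h1]; exact h.inv.ne) ψ
  rw [h1] at h2
  rw [eq_div_iff q_ne, ← h.gs_mul hψ]
  linear_combination (gaussSum χ ψ) * h2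

/-- the sum over the curve -/
theorem Cub.char_sum (h : Cub χ) (hψ : ψ ≠ 1) {M : F} (hM : M ≠ 0) :
    ∑ y : F, χ (y ^ 2 + M * y) = χ⁻¹ M * (gaussSum χ ψ ^ 3 / (Fintype.card F : ℂ)) := by
  rw [← h.jac hψ, jacobiSum, mul_sum]
  refine (Fintype.sum_equiv (Equiv.mulLeft₀ (-M) (neg_ne_zero.2 hM)) _ _ fun z => ?_).symm
  rw [Equiv.mulLeft₀_apply]
  have e : (-M * z) ^ 2 + M * (-M * z) = (-1) * (M * M * (z * (1 - z))) := by ring
  rw [e, map_mul, h.neg_one, one_mul, map_mul, map_mul, map_mul, h.ap2']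

/-- the number of the affine points of `y² + M y = x³` -/
theorem Cub.curve (h : Cub χ) (hψ : ψ ≠ 1) {M : F} (hM : M ≠ 0) :
    (Nat.card {P : F × F // P.2 ^ 2 + M * P.2 = P.1 ^ 3} : ℂ) =
      (Fintype.card F : ℂ) + V χ ψ M / (Fintype.card F : ℂ) := by
  classical
  have h1 : Nat.card {P : F × F // P.2 ^ 2 + M * P.2 = P.1 ^ 3} =
      ∑ y : F, (univ.filter fun x : F => x ^ 3 = y ^ 2 + M * y).card := by
    rw [← Nat.card_congr (Equiv.prodComm F F |>.subtypeEquiv (p := fun P : F × F =>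
      P.2 ^ 3 = P.1 ^ 2 + M * P.1) (q := fun P : F × F => P.2 ^ 2 + M * P.2 = P.1 ^ 3)
      fun P => by simp [eq_comm])]
    rw [Nat.card_eq_fintype_card, Fintype.card_subtype, ← univ_product_univ]
    rw [card_filter, sum_product]
    refine sum_congr rfl fun y _ => ?_
    rw [card_filter]
  rw [h1, Nat.cast_sum, sum_congr rfl fun y _ => h.count _, sum_add_distrib, sum_add_distrib,
    h.char_sum hψ hM]
  have h2 := h.inv.char_sum hψ hM
  rw [inv_inv] at h2
  rw [h2]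
  simp only [sum_const, card_univ, nsmul_eq_mul, mul_one]
  unfold V
  ring

end

section ext

variable {F : Type} [Field F] [Fintype F] {χ : MulChar F ℂ} {ψ : AddChar F ℂ}
variable (E : Type) [Field E] [Fintype E] [Algebra F E]

theorem nch_one : nch E (1 : MulChar F ℂ) = 1 := by
  classical
  ext x
  rw [nch_apply, MulChar.one_apply_coe, MulChar.one_apply]
  haveI : Module.Finite F E := Module.Finite.of_finite
  exact (Algebra.norm_ne_zero_iff.2 x.ne_zero).isUnit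

theorem nch_inv (χ : MulChar F ℂ) : (nch E χ)⁻¹ = nch E χ⁻¹ := by
  rw [inv_eq_iff_mul_eq_one, ← nch_mul, mul_inv_cancel, nch_one]

theorem Cub.ext (h : Cub χ) : Cub (nch E χ) := by
  refine ⟨nch_ne_one E h.ne, ?_⟩
  rw [pow_succ, pow_two, ← nch_mul, ← nch_mul, ← pow_two, ← pow_succ, h.cube, nch_one]

/-- the sum for the extension -/
theorem Cub.V_ext (_h : Cub χ) (hψ : ψ ≠ 1) (M : F) :
    V (nch E χ) (psi ψ E) (algebraMap F E M) = -((-1) ^ Module.finrank F E *
      ((χ⁻¹ M * gaussSum χ ψ ^ 3) ^ Module.finrank F E +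
        (χ M * gaussSum χ⁻¹ ψ ^ 3) ^ Module.finrank F E)) := by
  haveI : Module.Finite F E := Module.Finite.of_finite
  set m := Module.finrank F E with hm
  have hm0 : 0 < m := Module.finrank_pos
  unfold V
  rw [nch_inv, gs_nch E _ hψ, gs_nch E _ hψ, nch_apply, nch_apply, Algebra.norm_algebraMap, ← hm,
    map_pow, map_pow]
  obtain ⟨k, hk⟩ : ∃ k, m = k + 1 := ⟨m - 1, by omega⟩
  rw [hk, Nat.add_sub_cancel]
  have h3 : ((-1 : ℂ) ^ k) ^ 3 = (-1) ^ k := by
    rw [← pow_mul, mul_comm, pow_mul]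
    norm_num
  have e : ∀ x y : ℂ, x ^ (k + 1) * ((-1) ^ k * y ^ (k + 1)) ^ 3 = (-1) ^ k * (x * y ^ 3) ^ (k + 1) := by
    intro x y
    rw [mul_pow, h3, mul_pow]
    ring
  rw [e, e]
  ring

end ext

end Pool.Agent.H733.CB
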