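import Pool.Agent.H733.CB.Main

/-!
# The value is a unit above three if and only if `D` does not split
-/

set_option autoImplicit false
set_option linter.unusedSectionVars false
set_option linter.style.haveILetI false

namespace Pool.Agent.H733.CB

open Finset Polynomial
open Pool.Agent.Y703.CT (WD IsL Cls NoSplit Base EQ ThreeUnit ThreeInt tamProd)
open Pool.Agent.W97.MT (affCount ap)

theorem TI.of {u : ℂ} (h : ThreeUnit u) : ThreeInt u := by
  obtain ⟨-, n, h1, h2, -⟩ := h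
  exact ⟨n, h1, h2⟩

theorem TI.mul {u v : ℂ} (hu : ThreeInt u) (hv : ThreeInt v) : ThreeInt (u * v) := by
  obtain ⟨n, n1, n2⟩ := hu
  obtain ⟨m, m1, m2⟩ := hv
  refine ⟨n * m, n1.mul_right m1, ?_⟩
  have e : ((n * m : ℤ) : ℂ) * (u * v) = (n * u) * (m * v) := by push_cast; ring
  rw [e]
  exact n2.mul m2

theorem TI.prod {ι : Type} (s : Finset ι) (u : ι → ℂ) (h : ∀ i ∈ s, ThreeInt (u i)) :
    ThreeInt (∏ i ∈ s, u i) := by
  classical
  induction s using Finset.induction_on with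
  | empty => rw [prod_empty]; exact TI.of TU.one
  | insert i s hi ih =>
    rw [prod_insert hi]
    exact TI.mul (h i (mem_insert_self i s)) (ih fun j hj => h j (mem_insert_of_mem hj))

theorem TU.inv {u : ℂ} (h : ThreeUnit u) : ThreeUnit u⁻¹ := by
  obtain ⟨h0, n, h1, h2, h3⟩ := h
  exact ⟨inv_ne_zero h0, n, h1, h3, by rw [inv_inv]; exact h2⟩

theorem TU.left {u v : ℂ} (h : ThreeUnit (u * v)) (hu : ThreeInt u) (hv : ThreeInt v) :
    ThreeUnit u := by
  have h0 : u ≠ 0 := left_ne_zero_of_mul h.1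
  have hv0 : v ≠ 0 := right_ne_zero_of_mul h.1
  have h1 : ThreeInt u⁻¹ := by
    have e : u⁻¹ = v * (u * v)⁻¹ := by
      rw [mul_inv]
      field_simp
    rw [e]
    exact TI.mul hv (TI.of (TU.inv h))
  obtain ⟨n, n1, n2⟩ := hu
  obtain ⟨m, m1, m2⟩ := h1
  refine ⟨h0, n * m, n1.mul_right m1, ?_, ?_⟩
  · have hm : IsIntegral ℤ ((m : ℤ) : ℂ) := by
      have := isIntegral_algebraMap (R := ℤ) (A := ℂ) (x := m)
      simpa using this
    have e : ((n * m : ℤ) : ℂ) * u = m * (n * u) := by push_cast; ring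
    rw [e]
    exact hm.mul n2
  · have hn : IsIntegral ℤ ((n : ℤ) : ℂ) := by
      have := isIntegral_algebraMap (R := ℤ) (A := ℂ) (x := n)
      simpa using this
    have e : ((n * m : ℤ) : ℂ) * u⁻¹ = n * (m * u⁻¹) := by push_cast; ring
    rw [e]
    exact hn.mul m2

theorem TU.iff_mul {u v : ℂ} (hv : ThreeUnit v) : ThreeUnit (u * v) ↔ ThreeUnit u := by
  constructor
  · intro h
    have e : u = (u * v) * v⁻¹ := by
      have := hv.1
      field_simp
    rw [e]
    exact TU.mul h (TU.inv hv)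
  · exact fun h => TU.mul h hv

/-- one curve -/
theorem one_iff {D : ℕ} (hC : Cls D) :
    ∃ f : ℂ → ℂ, ∃ u : ℂ, IsL (WD D) f ∧ ThreeInt u ∧ (ThreeUnit u ↔ NoSplit D) ∧
      f 1 = u * ((Om0 : ℂ) * 3 ^ D.primeFactors.card / 9) := by
  obtain ⟨-, f, hf, u, hu, h0, h1, -, -⟩ := Pool.Agent.Y703.CT.one Pool.Agent.Y737.CT.even
    Pool.Agent.Y703.CT.cnv hC
  have hB := hC.1
  obtain ⟨m, hm3, hm⟩ := Pool.Agent.Y145.CT.tamThm Pool.Agent.Y809.BSD14.t_E0 D hB
  have hper := Pool.Agent.Y333.CT.per D (Nat.pos_of_ne_zero hB.1)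
  have hv : ThreeUnit ((m : ℂ) * ((((D : ℝ) ^ (1 / 3 : ℝ) : ℝ) : ℂ)⁻¹)) :=
    TU.mul (TU.nat hm3) (TU.cbrt hB.2.1)
  refine ⟨f, u * (m * ((((D : ℝ) ^ (1 / 3 : ℝ) : ℝ) : ℂ)⁻¹)), hf, TI.mul h0 (TI.of hv),
    (TU.iff_mul hv).trans h1, ?_⟩
  rw [hu, hper, hm]
  unfold Om0
  push_cast
  rw [div_eq_mul_inv _ (((D : ℝ) ^ (1 / 3 : ℝ) : ℝ) : ℂ)]
  ring

theorem noSplit_du_iff {D : ℕ} (hC : Cls D) : NoSplit (du D) ↔ NoSplit D := by
  constructor
  · intro h
    have h1 := noSplit_du (cls_du hC) h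
    rwa [(cf_of_cls hC).du_du] at h1
  · exact noSplit_du hC

/-- **The family, all `D` in the class.** -/
theorem family_iff {N r : ℕ} (hN : r < N) {D : ℕ} (hC : Cls D) :
    ∃ F : ℂ → ℂ, Differentiable ℂ F ∧
      (∀ s : ℂ, (r : ℝ) + 3 / 2 < s.re →
        HasProd (fun p : {p : ℕ // p.Prime ∧ ¬ p ∣ 3 * ∏ i, fam N D i} =>
          (aeval ((p.1 : ℂ) ^ (-s)) (PP N r (fam N D) p.1))⁻¹) (F s)) ∧
      ∃ u : ℂ, ThreeInt u ∧ (ThreeUnit u ↔ NoSplit D) ∧
        F (r + 1) = u * ((Om0 : ℂ) * 3 ^ D.primeFactors.card / 9) ^ N.choose r := by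
  classical
  have hcf := cf_of_cls hC
  obtain ⟨c, hc0, hc⟩ := sq_eq hcf
  obtain ⟨f1, u1, a1, a2, a3, a4⟩ := one_iff hC
  obtain ⟨f2, u2, b1, b2, b3, b4⟩ := one_iff (cls_du hC)
  rw [noSplit_du_iff hC] at b3
  rw [hcf.pf] at b4
  have ha : ∀ i, fam N D i ≠ 0 := by
    intro i
    unfold fam
    split_ifs
    · exact hcf.1
    · exact one_ne_zero
  have hN0 : 0 < N := by omega
  set l : Fin N := ⟨N - 1, by omega⟩ with hl
  have hprod : ∏ i, fam N D i = D := by rw [fam_prod hN0, if_pos (mem_univ _)]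
  have hM : ∀ T : Finset (Fin N), MT (fam N D) T =
      (if l ∈ T then du D else D) * (if l ∈ T then c else 1) ^ 3 := by
    intro T
    unfold MT
    rw [hprod, fam_prod hN0]
    split_ifs
    · rw [← hc]; ring
    · ring
  obtain ⟨B, hB, hd, hp⟩ := lfun (r := r) (fam N D) ha (fun T => if l ∈ T then du D else D)
    (fun T => if l ∈ T then c else 1) (fun T => if l ∈ T then f2 else f1) (fun T _ => hM T)
    (fun T _ => by split_ifs; exacts [b1, a1])
  have hint : ∀ T : Finset (Fin N), ThreeInt (if l ∈ T then u2 else u1) := fun T => by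
    split_ifs; exacts [b2, a2]
  refine ⟨_, hd, hp, ∏ T ∈ powersetCard r (univ : Finset (Fin N)), (if l ∈ T then u2 else u1),
    TI.prod _ _ fun T _ => hint T, ?_, ?_⟩
  · constructor
    · intro h
      -- a set without the last index
      have h1 : r ≤ (univ.erase l : Finset (Fin N)).card := by
        rw [card_erase_of_mem (mem_univ _), card_univ, Fintype.card_fin]
        omega
      obtain ⟨T, hT1, hT2⟩ := exists_subset_card_eq h1
      have hT : T ∈ powersetCard r (univ : Finset (Fin N)) := mem_powersetCard.2 ⟨subset_univ _, hT2⟩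
      have hlT : l ∉ T := fun h2 => (mem_erase.1 (hT1 h2)).1 rfl
      rw [← mul_prod_erase _ _ hT] at h
      have h2 := TU.left h (hint T) (TI.prod _ _ fun T _ => hint T)
      rw [if_neg hlT] at h2
      exact a3.1 h2
    · intro h
      refine TU.prod _ _ fun T _ => ?_
      split_ifs
      · exact b3.2 h
      · exact a3.2 h
  · have e : ((r : ℂ) + 1 - r) = 1 := by ring
    show (∏ T ∈ powersetCard r univ, (if l ∈ T then f2 else f1) ((r : ℂ) + 1 - r)) *
      ∏ p ∈ B, ∏ T ∈ powersetCard r univ, ef (if l ∈ T then du D else D) p ((r : ℂ) + 1 - r) = _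
    rw [e]
    have e1 : ∏ p ∈ B, ∏ T ∈ powersetCard r (univ : Finset (Fin N)),
        ef (if l ∈ T then du D else D) p 1 = 1 := by
      refine prod_eq_one fun p hpB => prod_eq_one fun T _ => ?_
      have h1 := hB p hpB
      rw [hprod, p.2.dvd_mul] at h1
      have h2 : (p : ℕ) ∣ 3 * (if l ∈ T then du D else D) := by
        rw [p.2.dvd_mul]
        rcases h1 with h1 | h1
        · exact Or.inl h1
        · right
          split_ifs
          · exact (hcf.dvd_du p.2).2 h1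
          · exact h1
      unfold ef
      rw [if_pos ((dvd_disc p.2).2 h2), Pool.Agent.Y703.CX.ap_bad p.2 (by exact_mod_cast h2)]
      simp
    rw [e1, mul_one]
    have e3 : ((Om0 : ℂ) * 3 ^ D.primeFactors.card / 9) ^ N.choose r =
        ∏ T ∈ powersetCard r (univ : Finset (Fin N)), ((Om0 : ℂ) * 3 ^ D.primeFactors.card / 9) := by
      rw [prod_const, card_powersetCard, card_univ, Fintype.card_fin]
    rw [e3, ← prod_mul_distrib]
    refine prod_congr rfl fun T _ => ?_
    split_ifs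
    · exact b4
    · exact a4

/-- uniqueness of the continuation -/
theorem unique_F {ι : Type} {g : ℂ → ι → ℂ} {c : ℝ} {F G : ℂ → ℂ} (hF : Differentiable ℂ F)
    (hG : Differentiable ℂ G) (h1 : ∀ s : ℂ, c < s.re → HasProd (g s) (F s))
    (h2 : ∀ s : ℂ, c < s.re → HasProd (g s) (G s)) : F = G := by
  have hfa : AnalyticOnNhd ℂ F Set.univ := fun z _ => hF.analyticAt z
  have hga : AnalyticOnNhd ℂ G Set.univ := fun z _ => hG.analyticAt z
  have heq : F =ᶠ[nhds ((c + 1 : ℝ) : ℂ)] G := by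
    have hopen : IsOpen {s : ℂ | c < s.re} := isOpen_lt continuous_const Complex.continuous_re
    have hm : ((c + 1 : ℝ) : ℂ) ∈ {s : ℂ | c < s.re} := by
      show c < (((c + 1 : ℝ) : ℂ)).re
      rw [Complex.ofReal_re]
      linarith
    filter_upwards [hopen.mem_nhds hm] with s hs
    exact (h1 s hs).unique (h2 s hs)
  have h := hfa.eqOn_of_preconnected_of_eventuallyEq hga isPreconnected_univ (Set.mem_univ _) heq
  funext z
  exact h (Set.mem_univ z)

end Pool.Agent.H733.CB
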