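import Pool.Agent.H733.CB.Poly
import Pool.Agent.Y703.CX.Rank

/-!
# The `L`-function of a diagonal cubic hypersurface
-/

set_option autoImplicit false
set_option linter.unusedSectionVars false
set_option linter.style.haveILetI false

namespace Pool.Agent.H733.CB

open Finset Polynomial
open Pool.Agent.Y703.CT (WD IsL)
open Pool.Agent.W97.MT (affCount ap)

/-- the local data of one curve at a prime -/
theorem ap_eq (p : ℕ) (D : ℕ) : ap (WD D) p = tf p (D : ZMod p) := by
  unfold ap affCount tf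
  congr 2
  apply congrArg Nat.card
  apply congrArg
  funext P
  rw [Pool.Agent.Y703.CX.eqn_iff]
  simp

/-- the Euler factor of `y² + D y = x³` -/
noncomputable def ef (D p : ℕ) (s : ℂ) : ℂ :=
  1 - (ap (WD D) p : ℂ) * (p : ℂ) ^ (-s) + (if (p : ℤ) ∣ (WD D).Δ then 0 else (p : ℂ) ^ (1 - 2 * s))

theorem dvd_disc {p D : ℕ} (hp : p.Prime) : (p : ℤ) ∣ (WD D).Δ ↔ p ∣ 3 * D := by
  rw [Pool.Agent.Y703.CX.WD_disc]
  have hpi : Prime (p : ℤ) := Nat.prime_iff_prime_int.1 hp
  have e : (-27 * (D : ℤ) ^ 4 : ℤ) = -(3 ^ 3 * (D : ℤ) ^ 4) := by ring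
  rw [e, dvd_neg, hpi.dvd_mul, hpi.dvd_pow_iff_dvd (by norm_num), hpi.dvd_pow_iff_dvd (by norm_num),
    hp.dvd_mul]
  constructor
  · rintro (h | h)
    · exact Or.inl (by exact_mod_cast h)
    · exact Or.inr (by exact_mod_cast h)
  · rintro (h | h)
    · exact Or.inl (by exact_mod_cast h)
    · exact Or.inr (by exact_mod_cast h)

theorem cpow_one_sub {p : ℕ} (hp : p.Prime) (s : ℂ) :
    (p : ℂ) ^ (1 - 2 * s) = p * ((p : ℂ) ^ (-s)) ^ 2 := by
  have hp0 : (p : ℂ) ≠ 0 := by exact_mod_cast hp.ne_zero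
  have e : (1 - 2 * s : ℂ) = 1 + (-s + -s) := by ring
  rw [e, Complex.cpow_add _ _ hp0, Complex.cpow_one, Complex.cpow_add _ _ hp0]
  ring

theorem ef_ne {D p : ℕ} (hp : p.Prime) {s : ℂ} (hs : 1 / 2 < s.re) : ef D p s ≠ 0 := by
  by_cases h : (p : ℤ) ∣ (WD D).Δ
  · have h1 : p ∣ 3 * D := (dvd_disc hp).1 h
    unfold ef
    rw [if_pos h, Pool.Agent.Y703.CX.ap_bad hp (by exact_mod_cast h1)]
    simp
  · have h1 : ¬ p ∣ 3 * D := fun h2 => h ((dvd_disc hp).2 h2)
    haveI := Fact.mk hp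
    have h3 : p ≠ 3 := by
      rintro rfl
      exact h1 (dvd_mul_right 3 D)
    have hD : ((D : ℕ) : ZMod p) ≠ 0 := by
      rw [Ne, ZMod.natCast_eq_zero_iff]
      exact fun h4 => h1 (dvd_mul_of_dvd_right h4 3)
    obtain ⟨α, β, k1, -, -⟩ := loc p h3
    obtain ⟨a1, a2, a3, a4⟩ := k1 _ hD
    set x : ℂ := (p : ℂ) ^ (-s) with hx
    have e : ef D p s = (1 - α D * x) * (1 - β D * x) := by
      unfold ef
      rw [if_neg h, ap_eq, cpow_one_sub hp, ← hx, ← a2]
      have e1 : (tf p (D : ZMod p) : ℂ) = α D + β D := by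
        rw [a1]
        unfold tf
        push_cast
        rfl
      rw [e1]
      ring
    have hxn : ‖x‖ ^ 2 < 1 / p := by
      have hp1 : (1 : ℝ) < p := by exact_mod_cast hp.one_lt
      have hp0 : (0 : ℝ) < p := by positivity
      have e2 : ‖x‖ = (p : ℝ) ^ (-s.re) := by
        rw [hx]
        have := Complex.norm_cpow_eq_rpow_re_of_pos hp0 (-s)
        rw [Complex.neg_re] at this
        exact_mod_cast this
      rw [e2, ← Real.rpow_natCast, ← Real.rpow_mul hp0.le, one_div, ← Real.rpow_neg_one]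
      apply Real.rpow_lt_rpow_of_exponent_lt hp1
      push_cast
      linarith
    have hne : ∀ z : ℂ, ‖z‖ ^ 2 = p → 1 - z * x ≠ 0 := by
      intro z hz h4
      have hp0 : (0 : ℝ) < p := by exact_mod_cast hp.pos
      have h5 : z * x = 1 := by linear_combination -h4
      have h6 : ‖z‖ ^ 2 * ‖x‖ ^ 2 = 1 := by
        rw [← mul_pow, ← norm_mul, h5, norm_one, one_pow]
      rw [hz] at h6
      have h7 : (p : ℝ) * ‖x‖ ^ 2 < p * (1 / p) := mul_lt_mul_of_pos_left hxn hp0
      rw [h6, mul_one_div_cancel hp0.ne'] at h7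
      exact lt_irrefl _ h7
    rw [e]
    exact mul_ne_zero (hne _ a3) (hne _ a4)

theorem ef_diff (D : ℕ) {p : ℕ} (hp : p.Prime) : Differentiable ℂ (ef D p) := by
  have hp0 : (p : ℂ) ≠ 0 := by exact_mod_cast hp.ne_zero
  have h1 : Differentiable ℂ fun s : ℂ => (p : ℂ) ^ (-s) := fun s =>
    DifferentiableAt.const_cpow (by fun_prop) (Or.inl hp0)
  have h2 : Differentiable ℂ fun s : ℂ => (p : ℂ) ^ (1 - 2 * s) := fun s =>
    DifferentiableAt.const_cpow (by fun_prop) (Or.inl hp0)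
  unfold ef
  by_cases h : (p : ℤ) ∣ (WD D).Δ
  · simp only [h, if_true]
    fun_prop
  · simp only [h, if_false]
    fun_prop

/-- the twists by `M` and `D` are the same if `M = D c³` -/
theorem tf_cube {p : ℕ} (hp : p.Prime) (h3 : p ≠ 3) {M D c : ℕ} (hM : M = D * c ^ 3)
    (hpM : ¬ p ∣ M) : tf p (M : ZMod p) = tf p (D : ZMod p) := by
  haveI := Fact.mk hp
  obtain ⟨α, β, k1, k2, -⟩ := loc p h3
  have hD : ((D : ℕ) : ZMod p) ≠ 0 := by
    rw [Ne, ZMod.natCast_eq_zero_iff]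
    exact fun h4 => hpM (by rw [hM]; exact dvd_mul_of_dvd_left h4 _)
  have hc : ((c : ℕ) : ZMod p) ≠ 0 := by
    rw [Ne, ZMod.natCast_eq_zero_iff]
    exact fun h4 => hpM (by rw [hM]; exact dvd_mul_of_dvd_right (dvd_pow h4 (by norm_num)) _)
  have hM' : ((M : ℕ) : ZMod p) ≠ 0 := by rw [Ne, ZMod.natCast_eq_zero_iff]; exact hpM
  obtain ⟨a1, -⟩ := k1 _ hM'
  obtain ⟨b1, -⟩ := k1 _ hD
  have e : ((M : ℕ) : ZMod p) = (D : ZMod p) * (c : ZMod p) ^ 3 := by rw [hM]; push_cast; ring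
  have h1 : (tf p (M : ZMod p) : ℂ) = tf p (D : ZMod p) := by
    unfold tf
    push_cast
    rw [← a1, ← b1, e, (k2 _ _ hc).1, (k2 _ _ hc).2]
  exact_mod_cast h1

/-- **The `L`-function.** -/
theorem lfun {N r : ℕ} (a : Fin N → ℕ) (ha : ∀ i, a i ≠ 0)
    (D c : Finset (Fin N) → ℕ) (f : Finset (Fin N) → ℂ → ℂ)
    (hM : ∀ T ∈ powersetCard r (univ : Finset (Fin N)), MT a T = D T * c T ^ 3)
    (hf : ∀ T ∈ powersetCard r (univ : Finset (Fin N)), IsL (WD (D T)) (f T)) :
    ∃ B : Finset Nat.Primes, (∀ p ∈ B, (p : ℕ) ∣ 3 * ∏ i, a i) ∧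
      Differentiable ℂ (fun s : ℂ => (∏ T ∈ powersetCard r univ, f T (s - r)) *
        ∏ p ∈ B, ∏ T ∈ powersetCard r univ, ef (D T) p (s - r)) ∧
      (∀ s : ℂ, (r : ℝ) + 3 / 2 < s.re →
        HasProd (fun p : {p : ℕ // p.Prime ∧ ¬ p ∣ 3 * ∏ i, a i} =>
          (aeval ((p.1 : ℂ) ^ (-s)) (PP N r a p.1))⁻¹)
          ((∏ T ∈ powersetCard r univ, f T (s - r)) *
            ∏ p ∈ B, ∏ T ∈ powersetCard r univ, ef (D T) p (s - r))) := by
  classical
  set A := ∏ i, a i with hA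
  have hA0 : A ≠ 0 := prod_ne_zero_iff.2 fun i _ => ha i
  set Ps := powersetCard r (univ : Finset (Fin N)) with hPs
  -- the bad primes
  have hBfin : {p : Nat.Primes | (p : ℕ) ∣ 3 * A}.Finite := by
    refine Set.Finite.of_finite_image (f := fun p : Nat.Primes => (p : ℕ)) ?_
      (Subtype.val_injective.injOn)
    refine (Nat.divisors (3 * A)).finite_toSet.subset ?_
    rintro _ ⟨p, hp, rfl⟩
    exact Nat.mem_divisors.2 ⟨hp, by positivity⟩
  set B : Finset Nat.Primes := hBfin.toFinset with hB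
  have hmB : ∀ p : Nat.Primes, p ∈ B ↔ (p : ℕ) ∣ 3 * A := by
    intro p
    rw [hB, Set.Finite.mem_toFinset]
    rfl
  refine ⟨B, fun p hp => (hmB p).1 hp, ?_, ?_⟩
  · refine Differentiable.mul ?_ ?_
    · refine Differentiable.fun_finsetProd fun T hT => ?_
      exact (hf T hT).1.comp (differentiable_id.sub_const _)
    · refine Differentiable.fun_finsetProd fun p _ => ?_
      refine Differentiable.fun_finsetProd fun T _ => ?_
      exact (ef_diff (D T) p.2).comp (differentiable_id.sub_const _)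
  · intro s hs
    have hs' : 3 / 2 < (s - r).re := by
      rw [Complex.sub_re, Complex.natCast_re]
      linarith
    have h1 : HasProd (fun p : Nat.Primes => ∏ T ∈ Ps, (ef (D T) p (s - r))⁻¹)
        (∏ T ∈ Ps, f T (s - r)) := by
      refine hasProd_prod fun T hT => ?_
      exact (hf T hT).2 (s - r) hs'
    have h2 : HasProd (fun p : Nat.Primes => if p ∈ B then ∏ T ∈ Ps, ef (D T) p (s - r) else 1)
        (∏ p ∈ B, ∏ T ∈ Ps, ef (D T) p (s - r)) := by
      have h3 := hasProd_prod_of_ne_finset_one (L := .unconditional _) (s := B)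
        (f := fun p : Nat.Primes => if p ∈ B then ∏ T ∈ Ps, ef (D T) p (s - r) else 1)
        (fun p hp => if_neg hp)
      rw [prod_congr rfl fun p hp => if_pos hp] at h3
      exact h3
    have h3 := h1.mul h2
    have h4 : ∀ p : Nat.Primes, (∏ T ∈ Ps, (ef (D T) p (s - r))⁻¹) *
        (if p ∈ B then ∏ T ∈ Ps, ef (D T) p (s - r) else 1) =
        if ¬ (p : ℕ) ∣ 3 * A then (aeval (((p : ℕ) : ℂ) ^ (-s)) (PP N r a p))⁻¹ else 1 := by
      intro p
      have hp : (p : ℕ).Prime := p.2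
      by_cases hb : (p : ℕ) ∣ 3 * A
      · rw [if_pos ((hmB p).2 hb), if_neg (not_not.2 hb), ← prod_mul_distrib]
        refine prod_eq_one fun T _ => ?_
        exact inv_mul_cancel₀ (ef_ne hp (by linarith))
      · rw [if_neg fun h => hb ((hmB p).1 h), if_pos hb, mul_one, prod_inv_distrib]
        congr 1
        unfold PP
        rw [map_prod]
        refine prod_congr rfl fun T hT => ?_
        have h3p : (p : ℕ) ≠ 3 := by
          intro h
          apply hb
          rw [h]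
          exact dvd_mul_right 3 A
        have hpa : ∀ i, ¬ (p : ℕ) ∣ a i := fun i hi =>
          hb (dvd_mul_of_dvd_right (hi.trans (dvd_prod_of_mem a (mem_univ i))) 3)
        have hpM : ¬ (p : ℕ) ∣ MT a T := by
          unfold MT
          rw [hp.prime.dvd_mul, hp.prime.dvd_finsetProd_iff, hp.prime.dvd_finsetProd_iff]
          rintro (⟨i, -, hi⟩ | ⟨i, -, hi⟩)
          · exact hpa i hi
          · exact hpa i hi
        have hpD : ¬ (p : ℤ) ∣ (WD (D T)).Δ := by
          rw [dvd_disc hp, hp.dvd_mul]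
          rintro (h | h)
          · exact h3p ((Nat.prime_dvd_prime_iff_eq hp Nat.prime_three).1 h)
          · exact hpM (by rw [hM T hT]; exact dvd_mul_of_dvd_left h _)
        have hp0 : ((p : ℕ) : ℂ) ≠ 0 := by exact_mod_cast hp.ne_zero
        have e1 : ((p : ℕ) : ℂ) ^ (-(s - r)) = ((p : ℕ) : ℂ) ^ r * ((p : ℕ) : ℂ) ^ (-s) := by
          have e2 : -(s - (r : ℂ)) = (r : ℂ) + -s := by ring
          rw [e2, Complex.cpow_add _ _ hp0, Complex.cpow_natCast]
        unfold ef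
        rw [if_neg hpD, ap_eq, ← tf_cube hp h3p (hM T hT) hpM, cpow_one_sub hp, e1]
        unfold QT
        simp only [map_add, map_sub, map_mul, map_one, map_pow, aeval_X, aeval_C]
        simp only [algebraMap_int_eq, eq_intCast, Int.cast_natCast]
        ring
    have h5 : HasProd (fun p : Nat.Primes =>
        if ¬ (p : ℕ) ∣ 3 * A then (aeval (((p : ℕ) : ℂ) ^ (-s)) (PP N r a p))⁻¹ else 1)
        ((∏ T ∈ Ps, f T (s - r)) * ∏ p ∈ B, ∏ T ∈ Ps, ef (D T) p (s - r)) := by
      refine (congrArg (fun g => HasProd g _) (funext h4)).mp h3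
    -- to the subtype
    have h6 : HasProd (fun n : ℕ => if n.Prime ∧ ¬ n ∣ 3 * A then
        (aeval ((n : ℂ) ^ (-s)) (PP N r a n))⁻¹ else 1)
        ((∏ T ∈ Ps, f T (s - r)) * ∏ p ∈ B, ∏ T ∈ Ps, ef (D T) p (s - r)) := by
      refine (hasProd_subtype_iff_of_mulSupport_subset (s := {n : ℕ | n.Prime}) ?_).1 ?_
      · intro n hn
        rw [Function.mem_mulSupport] at hn
        by_contra h7
        exact hn (if_neg fun h8 => h7 h8.1)
      · refine (congrArg (fun g => HasProd g _) (funext fun p : Nat.Primes => ?_)).mp h5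
        have hp : (p : ℕ).Prime := p.2
        by_cases hb : (p : ℕ) ∣ 3 * A
        · rw [if_neg (not_not.2 hb)]
          exact (if_neg fun h => h.2 hb).symm
        · rw [if_pos hb]
          exact (if_pos ⟨hp, hb⟩).symm
    have h7 : HasProd ((fun n : ℕ => if n.Prime ∧ ¬ n ∣ 3 * A then
        (aeval ((n : ℂ) ^ (-s)) (PP N r a n))⁻¹ else 1) ∘
        ((↑) : {n : ℕ | n.Prime ∧ ¬ n ∣ 3 * A} → ℕ))
        ((∏ T ∈ Ps, f T (s - r)) * ∏ p ∈ B, ∏ T ∈ Ps, ef (D T) p (s - r)) := by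
      refine (hasProd_subtype_iff_of_mulSupport_subset ?_).2 h6
      intro n hn
      rw [Function.mem_mulSupport] at hn
      by_contra h8
      exact hn (if_neg h8)
    refine (congrArg (fun g => HasProd g _) (funext fun p => ?_)).mp h7
    exact if_pos p.2

end Pool.Agent.H733.CB
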