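import Pool.Agent.H733.CB.Quad

/-!
# The local factor
-/

set_option autoImplicit false
set_option linter.unusedSectionVars false
set_option linter.style.haveILetI false

namespace Pool.Agent.H733.CB

open Finset
open Pool.Agent.Y145.KS (psi psi_apply psi_ne_one)
open Pool.Agent.Y547.UE (nch nch_apply nch_ne_one nch_mul gs_nch)

/-- the number of the points of the affine cone other than the origin -/
noncomputable def cone (N : ℕ) (a : Fin N → ℕ) (K : Type) [Field K] : ℕ :=
  Nat.card {x : Fin N → K // x ≠ 0 ∧ ∑ i, (a i : K) * x i ^ 3 = 0}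

/-- `M_T` -/
def MT {N : ℕ} (a : Fin N → ℕ) (T : Finset (Fin N)) : ℕ := (∏ i, a i) * ∏ i ∈ T, a i

theorem cone_eq {N : ℕ} (a : Fin N → ℕ) (K : Type) [Field K] [Fintype K] [DecidableEq K] :
    ((univ.filter fun x : Fin N → K => ∑ i, (a i : K) * x i ^ 3 = 0).card : ℂ) = cone N a K + 1 := by
  classical
  set Z := univ.filter fun x : Fin N → K => ∑ i, (a i : K) * x i ^ 3 = 0 with hZ
  have h0 : (0 : Fin N → K) ∈ Z := by
    rw [hZ, mem_filter]
    refine ⟨mem_univ _, ?_⟩
    simp
  have h1 : cone N a K = (Z.erase 0).card := by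
    unfold cone
    rw [Nat.card_eq_fintype_card, Fintype.card_subtype]
    congr 1
    ext x
    simp [hZ]
  rw [h1, ← card_erase_add_one h0]
  push_cast
  rfl

theorem cone_of {N r : ℕ} (hN : N = 2 * r + 3) (a : Fin N → ℕ) (K : Type) [Field K] [Fintype K]
    [DecidableEq K] (w : Finset (Fin N) → ℂ)
    (h : (Fintype.card K : ℂ) *
      ((univ.filter fun x : Fin N → K => ∑ i, (a i : K) * x i ^ 3 = 0).card : ℂ) =
      (Fintype.card K : ℂ) ^ N + ((Fintype.card K : ℂ) - 1) * (Fintype.card K : ℂ) ^ r *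
        ∑ T ∈ powersetCard r univ, (-((Fintype.card K : ℂ) * w T))) :
    (cone N a K : ℂ) = ((Fintype.card K : ℂ) - 1) * (∑ i ∈ range (N - 1), (Fintype.card K : ℂ) ^ i -
      (Fintype.card K : ℂ) ^ r * ∑ T ∈ powersetCard r univ, w T) := by
  rw [cone_eq] at h
  set q : ℂ := (Fintype.card K : ℂ) with hq
  have hq0 : q ≠ 0 := q_ne
  rw [sum_neg_distrib, ← mul_sum] at h
  have h2 : (q - 1) * ∑ i ∈ range (N - 1), q ^ i = q ^ (N - 1) - 1 := by
    rw [mul_comm]
    exact geom_sum_mul q (N - 1)
  have h3 : q ^ N = q * q ^ (N - 1) := by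
    rw [← pow_succ']
    congr 1
    omega
  rw [mul_sub, h2]
  apply mul_left_cancel₀ hq0
  rw [h3] at h
  linear_combination h

theorem exists_cub {F : Type} [Field F] [Fintype F] (h : Fintype.card F % 3 = 1) :
    ∃ χ : MulChar F ℂ, Cub χ := by
  classical
  obtain ⟨χ, hχ⟩ := MulChar.exists_mulChar_orderOf F (n := 3)
    (by have := Fintype.one_lt_card (α := F); omega) (Complex.isPrimitiveRoot_exp 3 (by norm_num))
  refine ⟨χ, ?_, ?_⟩
  · rintro rfl
    rw [orderOf_one] at hχ
    omega
  · rw [← hχ]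
    exact pow_orderOf_eq_one χ

theorem exists_psi (p : ℕ) [Fact p.Prime] : ∃ ψ : AddChar (ZMod p) ℂ, ψ ≠ 1 := by
  refine ⟨ZMod.stdAddChar, fun h => ?_⟩
  have h1 := ZMod.isPrimitive_stdAddChar p
  exact h1 (one_ne_zero) (by rw [h]; ext x; rfl)

theorem Cub.norm_gs {F : Type} [Field F] [Fintype F] {χ : MulChar F ℂ} {ψ : AddChar F ℂ} (h : Cub χ)
    (hψ : ψ ≠ 1) : ‖gaussSum χ ψ‖ ^ 2 = Fintype.card F := by
  have h1 := gaussSum_mul_gaussSum_eq_card h.ne (AddChar.IsPrimitive.of_ne_one hψ)
  rw [← star_gaussSum_eq] at h1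
  have h2 : ‖gaussSum χ ψ * star (gaussSum χ ψ)‖ = Fintype.card F := by
    rw [h1]
    simp
  rw [norm_mul, norm_star, ← pow_two] at h2
  exact h2

theorem Cub.norm_ap {F : Type} [Field F] [Fintype F] {χ : MulChar F ℂ} (h : Cub χ) {t : F}
    (ht : t ≠ 0) : ‖χ t‖ = 1 :=
  Complex.norm_eq_one_of_pow_eq_one (h.ap3 ht) (by norm_num)

/-- **the local statement** -/
theorem loc (p : ℕ) [Fact p.Prime] (h3 : p ≠ 3) : ∃ α β : ZMod p → ℂ,
    (∀ M : ZMod p, M ≠ 0 →
      α M + β M = (p : ℂ) - Nat.card {P : ZMod p × ZMod p // P.2 ^ 2 + M * P.2 = P.1 ^ 3} ∧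
      α M * β M = p ∧ ‖α M‖ ^ 2 = p ∧ ‖β M‖ ^ 2 = p) ∧
    (∀ M c : ZMod p, c ≠ 0 → α (M * c ^ 3) = α M ∧ β (M * c ^ 3) = β M) ∧
    ∀ (k : ℕ) (K : Type) [Field K] [Fintype K], Fintype.card K = p ^ k → ∀ (N r : ℕ),
      N = 2 * r + 3 → r ≤ 2 → ∀ a : Fin N → ℕ, (∀ i, ¬ p ∣ a i) →
      (cone N a K : ℂ) = ((p : ℂ) ^ k - 1) * (∑ i ∈ range (N - 1), ((p : ℂ) ^ k) ^ i -
        ((p : ℂ) ^ k) ^ r * ∑ T ∈ powersetCard r univ, (α (MT a T) ^ k + β (MT a T) ^ k)) := by
  classical
  have hpp : p.Prime := Fact.out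
  have hp0 : (p : ℂ) ≠ 0 := by exact_mod_cast hpp.ne_zero
  obtain ⟨ψ, hψ⟩ := exists_psi p
  have hmod : p % 3 = 1 ∨ p % 3 = 2 := by
    have : p % 3 ≠ 0 := fun h => h3 ((Nat.prime_dvd_prime_iff_eq Nat.prime_three hpp).1
      (Nat.dvd_of_mod_eq_zero h)).symm
    omega
  have hcast : ∀ {K : Type} [Field K] [Algebra (ZMod p) K] {N : ℕ} (a : Fin N → ℕ)
      (T : Finset (Fin N)), (∏ i, (a i : K)) * ∏ i ∈ T, (a i : K) =
        algebraMap (ZMod p) K ((MT a T : ℕ) : ZMod p) := by
    intro K _ _ N a T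
    unfold MT
    push_cast
    simp
  have hne : ∀ {K : Type} [Field K] [Algebra (ZMod p) K] (n : ℕ), ¬ p ∣ n → (n : K) ≠ 0 := by
    intro K _ _ n hn h
    have h1 : algebraMap (ZMod p) K (n : ZMod p) = 0 := by rw [map_natCast]; exact h
    rw [map_eq_zero] at h1
    exact hn ((ZMod.natCast_eq_zero_iff n p).1 h1)
  rcases hmod with hp | hp
  · obtain ⟨χ, h⟩ := exists_cub (F := ZMod p) (by rw [ZMod.card]; exact hp)
    have hGH := h.gs_mul hψ
    rw [ZMod.card] at hGH
    refine ⟨fun M => -(χ⁻¹ M * gaussSum χ ψ ^ 3) / p, fun M => -(χ M * gaussSum χ⁻¹ ψ ^ 3) / p,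
      ?_, ?_, ?_⟩
    · intro M hM
      have n1 : ‖gaussSum χ ψ‖ ^ 2 = p := by rw [h.norm_gs hψ, ZMod.card]
      have n2 : ‖gaussSum χ⁻¹ ψ‖ ^ 2 = p := by rw [h.inv.norm_gs hψ, ZMod.card]
      have hpr : (p : ℝ) ≠ 0 := by exact_mod_cast hpp.ne_zero
      refine ⟨?_, ?_, ?_, ?_⟩
      · rw [h.curve hψ hM, ZMod.card]
        unfold V
        ring
      rotate_left
      · rw [norm_div, norm_neg, norm_mul, norm_pow, h.inv.norm_ap hM, one_mul, div_pow, ← pow_mul,
          mul_comm 3 2, pow_mul, n1, Complex.norm_natCast]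
        field_simp
      · rw [norm_div, norm_neg, norm_mul, norm_pow, h.norm_ap hM, one_mul, div_pow, ← pow_mul,
          mul_comm 3 2, pow_mul, n2, Complex.norm_natCast]
        field_simp
      · have h1 : χ⁻¹ M * χ M = 1 := by
          rw [h.inv_ap]
          linear_combination h.ap3 hM
        have e : -(χ⁻¹ M * gaussSum χ ψ ^ 3) / (p : ℂ) * (-(χ M * gaussSum χ⁻¹ ψ ^ 3) / p) =
            (χ⁻¹ M * χ M) * (gaussSum χ ψ * gaussSum χ⁻¹ ψ) ^ 3 / p ^ 2 := by
          field_simp
        rw [e, h1, hGH]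
        field_simp
    · intro M c hc
      have h1 : χ (c ^ 3) = 1 := by rw [map_pow]; exact h.ap3 hc
      have h2 : χ⁻¹ (c ^ 3) = 1 := by rw [map_pow]; exact h.inv.ap3 hc
      constructor
      · simp only [map_mul, h2, mul_one]
      · simp only [map_mul, h1, mul_one]
    · intro k K _ _ hK N r hN hr a ha
      haveI : CharP K p := by
        obtain ⟨p', hn1, n, hn2, hn3⟩ := FiniteField.card' K
        have h6 : p' = p := by
          have h7 : p' ∣ p ^ k := by
            rw [← hK, hn3]
            exact dvd_pow_self _ n.pos.ne'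
          exact (Nat.prime_dvd_prime_iff_eq hn2 hpp).1 (hn2.dvd_of_dvd_pow h7)
        rw [← h6]
        exact hn1
      letI : Algebra (ZMod p) K := ZMod.algebra K p
      haveI : Module.Finite (ZMod p) K := Module.Finite.of_finite
      have hfr : Module.finrank (ZMod p) K = k := by
        have h7 := Module.card_eq_pow_finrank (K := ZMod p) (V := K)
        rw [hK, ZMod.card] at h7
        exact (Nat.pow_right_injective hpp.two_le h7).symm
      have hcone := (h.ext K).cone (psi_ne_one hψ K) hN hr (fun i => (a i : K))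
        (fun i => hne (a i) (ha i))
      have hq : (Fintype.card K : ℂ) = (p : ℂ) ^ k := by rw [hK]; push_cast; rfl
      have h8 := cone_of hN a K (fun T => (-(χ⁻¹ (MT a T : ZMod p) * gaussSum χ ψ ^ 3) / (p : ℂ)) ^ k +
        (-(χ (MT a T : ZMod p) * gaussSum χ⁻¹ ψ ^ 3) / (p : ℂ)) ^ k) (by
          rw [hcone]
          congr 2
          refine sum_congr rfl fun T _ => ?_
          have e2 : ∀ x : ℂ, (-x / (p : ℂ)) ^ k = (-1) ^ k * x ^ k / (p : ℂ) ^ k := fun x => by
            rw [div_pow, neg_pow]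
          rw [hcast, h.V_ext K hψ, hfr, hq, e2, e2]
          field_simp)
      rw [hq] at h8
      exact h8
  · -- `p = 2` modulo `3`
    set σ : ℂ := ((Real.sqrt p : ℝ) : ℂ) * Complex.I with hσ
    have hσ2 : σ ^ 2 = -(p : ℂ) := by
      rw [hσ, mul_pow, Complex.I_sq, ← Complex.ofReal_pow, Real.sq_sqrt (Nat.cast_nonneg p)]
      push_cast
      ring
    refine ⟨fun _ => σ, fun _ => -σ, ?_, fun _ _ _ => ⟨rfl, rfl⟩, ?_⟩
    · intro M _
      have hσn : ‖σ‖ ^ 2 = p := by
        rw [hσ, norm_mul, Complex.norm_I, mul_one, Complex.norm_real, Real.norm_eq_abs, sq_abs,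
          Real.sq_sqrt (Nat.cast_nonneg p)]
      refine ⟨?_, ?_, hσn, by rw [norm_neg]; exact hσn⟩
      · have hb := cube_bij (K := ZMod p) (by rw [ZMod.card]; exact hp)
        have hb2 : Function.Bijective fun q : {P : ZMod p × ZMod p // P.2 ^ 2 + M * P.2 = P.1 ^ 3} =>
            q.1.2 := by
          constructor
          · rintro ⟨⟨x, y⟩, h1⟩ ⟨⟨x', y'⟩, h2⟩ h3
            simp only at h1 h2 h3
            subst h3
            have : x = x' := hb.1 (show x ^ 3 = x' ^ 3 by rw [← h1, ← h2])
            subst this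
            rfl
          · intro y
            obtain ⟨x, hx⟩ := hb.2 (y ^ 2 + M * y)
            exact ⟨⟨(x, y), hx.symm⟩, rfl⟩
        rw [Nat.card_congr (Equiv.ofBijective _ hb2), Nat.card_zmod]
        ring
      · linear_combination -hσ2
    · intro k K _ _ hK N r hN hr a ha
      haveI : CharP K p := by
        obtain ⟨p', hn1, n, hn2, hn3⟩ := FiniteField.card' K
        have h6 : p' = p := by
          have h7 : p' ∣ p ^ k := by
            rw [← hK, hn3]
            exact dvd_pow_self _ n.pos.ne'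
          exact (Nat.prime_dvd_prime_iff_eq hn2 hpp).1 (hn2.dvd_of_dvd_pow h7)
        rw [← h6]
        exact hn1
      letI : Algebra (ZMod p) K := ZMod.algebra K p
      haveI : Module.Finite (ZMod p) K := Module.Finite.of_finite
      have hq : (Fintype.card K : ℂ) = (p : ℂ) ^ k := by rw [hK]; push_cast; rfl
      rcases Nat.even_or_odd k with ⟨m, hm⟩ | hk
      · -- even degree
        have hm : k = 2 * m := by omega
        have hfr : Module.finrank (ZMod p) K = k := by
          have h7 := Module.card_eq_pow_finrank (K := ZMod p) (V := K)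
          rw [hK, ZMod.card] at h7
          exact (Nat.pow_right_injective hpp.two_le h7).symm
        have hF2 : Module.finrank (ZMod p) (GaloisField p 2) = 2 := GaloisField.finrank p (by norm_num)
        haveI : Finite (GaloisField p 2) := Module.finite_of_finite (ZMod p)
        letI : Fintype (GaloisField p 2) := Fintype.ofFinite _
        obtain ⟨f⟩ := FiniteField.nonempty_algHom_of_finrank_dvd (F := ZMod p)
          (K := GaloisField p 2) (L := K) (by rw [hF2, hfr, hm]; exact dvd_mul_right 2 m)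
        letI : Algebra (GaloisField p 2) K := f.toRingHom.toAlgebra
        have hcF : Fintype.card (GaloisField p 2) = p ^ 2 := by
          rw [Module.card_eq_pow_finrank (K := ZMod p) (V := GaloisField p 2), hF2, ZMod.card]
        have hfm : Module.finrank (GaloisField p 2) K = m := by
          haveI : Module.Finite (GaloisField p 2) K := Module.Finite.of_finite
          have h7 := Module.card_eq_pow_finrank (K := GaloisField p 2) (V := K)
          rw [hK, hcF, ← pow_mul, hm] at h7
          have := Nat.pow_right_injective hpp.two_le h7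
          omega
        obtain ⟨χ, h⟩ := exists_cub (F := GaloisField p 2) (by
          rw [hcF, Nat.pow_mod, hp])
        have hψF := psi_ne_one hψ (GaloisField p 2)
        have hcone := (h.ext K).cone (psi_ne_one hψF K) hN hr (fun i => (a i : K))
          (fun i => hne (a i) (ha i))
        have e3 : σ ^ k = (-(p : ℂ)) ^ m := by rw [hm, pow_mul, hσ2]
        have e4 : (-σ) ^ k = (-(p : ℂ)) ^ m := by rw [hm, pow_mul, neg_sq, hσ2]
        have h8 := cone_of hN a K (fun _ => σ ^ k + (-σ) ^ k) (by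
          rw [hcone]
          congr 2
          refine sum_congr rfl fun T _ => ?_
          have hM : (MT a T : ZMod p) ≠ 0 := by
            rw [Ne, ZMod.natCast_eq_zero_iff]
            unfold MT
            rw [hpp.prime.dvd_mul, hpp.prime.dvd_finsetProd_iff, hpp.prime.dvd_finsetProd_iff]
            rintro (⟨i, -, hi⟩ | ⟨i, -, hi⟩)
            · exact ha i hi
            · exact ha i hi
          have e1 : (∏ i, (a i : K)) * ∏ i ∈ T, (a i : K) = algebraMap (GaloisField p 2) K
              (algebraMap (ZMod p) (GaloisField p 2) ((MT a T : ℕ) : ZMod p)) := by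
            unfold MT
            push_cast
            simp
          rw [e1, h.V_ext K hψF, hfm, h.base hp hM, h.inv.base hp hM, h.gs_quad hp hF2 hψ,
            h.inv.gs_quad hp hF2 hψ, hq, e3, e4, neg_pow (p : ℂ), hm]
          ring)
        rw [hq] at h8
        exact h8
      · -- odd degree
        have hK3 : Fintype.card K % 3 = 2 := by
          obtain ⟨j, hj⟩ := hk
          rw [hK, hj, pow_succ, pow_mul, Nat.mul_mod, Nat.pow_mod, Nat.pow_mod p 2, hp]
          norm_num
        have hb := cube_bij hK3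
        have hcp := count_psi (psi_ne_one hψ K) (fun i => (a i : K))
        have hz : ∀ b : K, b ≠ 0 → ∑ t : K, psi ψ K (b * t ^ 3) = 0 := by
          intro b hb0
          have h1 : ∑ t : K, psi ψ K (b * t ^ 3) = ∑ t : K, psi ψ K (b * t) :=
            Function.Bijective.sum_comp hb (fun t => psi ψ K (b * t))
          rw [h1]
          have h3 := AddChar.sum_mulShift b (AddChar.IsPrimitive.of_ne_one (psi_ne_one hψ K))
          rw [if_neg hb0, Nat.cast_zero] at h3
          rw [← h3]
          exact sum_congr rfl fun t _ => by rw [mul_comm]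
        have h8 := cone_of hN a K (fun _ => σ ^ k + (-σ) ^ k) (by
          have e1 : σ ^ k + (-σ) ^ k = 0 := by rw [hk.neg_pow]; ring
          rw [hcp, e1, sum_eq_single (0 : K)]
          · simp
          · intro u _ hu
            have i0 : Fin N := ⟨0, by omega⟩
            exact prod_eq_zero (mem_univ i0) (hz _ (mul_ne_zero hu (hne _ (ha i0))))
          · intro h9
            exact absurd (mem_univ _) h9)
        rw [hq] at h8
        exact h8

end Pool.Agent.H733.CB
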