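import Pool.Agent.H733.CB.Lfun
import Pool.Agent.H733.CB.Dual
import Pool.Agent.Y703.CT.T1d

/-!
# Diagonal cubic threefolds and fivefolds: the central value
-/

set_option autoImplicit false
set_option linter.unusedSectionVars false
set_option linter.style.haveILetI false

namespace Pool.Agent.H733.CB

open Finset Polynomial
open Pool.Agent.Y703.CT (WD IsL Cls NoSplit Base EQ ThreeUnit tamProd)
open Pool.Agent.W97.MT (affCount ap)

/-- the real period of `y² + y = x³` -/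
noncomputable def Om0 : ℝ := √3 * (Real.Gamma (1 / 3) ^ 3 / (2 * Real.pi))

theorem TU.one : ThreeUnit 1 :=
  ⟨one_ne_zero, 1, isCoprime_one_right, by simpa using isIntegral_one, by simpa using isIntegral_one⟩

theorem TU.mul {u v : ℂ} (hu : ThreeUnit u) (hv : ThreeUnit v) : ThreeUnit (u * v) := by
  obtain ⟨u0, n, n1, n2, n3⟩ := hu
  obtain ⟨v0, m, m1, m2, m3⟩ := hv
  refine ⟨mul_ne_zero u0 v0, n * m, n1.mul_right m1, ?_, ?_⟩
  · have e : ((n * m : ℤ) : ℂ) * (u * v) = (n * u) * (m * v) := by push_cast; ring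
    rw [e]
    exact n2.mul m2
  · have e : ((n * m : ℤ) : ℂ) * (u * v)⁻¹ = (n * u⁻¹) * (m * v⁻¹) := by
      push_cast
      rw [mul_inv]
      ring
    rw [e]
    exact n3.mul m3

theorem TU.prod {ι : Type} (s : Finset ι) (u : ι → ℂ) (h : ∀ i ∈ s, ThreeUnit (u i)) :
    ThreeUnit (∏ i ∈ s, u i) := by
  classical
  induction s using Finset.induction_on with
  | empty => rw [prod_empty]; exact TU.one
  | insert i s hi ih =>
    rw [prod_insert hi]
    exact TU.mul (h i (mem_insert_self i s)) (ih fun j hj => h j (mem_insert_of_mem hj))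

theorem int_nat (m : ℕ) : IsIntegral ℤ (m : ℂ) := by
  have h := isIntegral_algebraMap (R := ℤ) (A := ℂ) (x := (m : ℤ))
  simpa using h

theorem TU.nat {m : ℕ} (h : ¬ 3 ∣ m) : ThreeUnit (m : ℂ) := by
  have hm : m ≠ 0 := by
    rintro rfl
    exact h (dvd_zero 3)
  have hm' : (m : ℂ) ≠ 0 := by exact_mod_cast hm
  refine ⟨hm', (m : ℤ), ?_, ?_, ?_⟩
  · have h1 : Nat.Coprime 3 m := (Nat.Prime.coprime_iff_not_dvd Nat.prime_three).2 h
    exact_mod_cast Nat.isCoprime_iff_coprime.2 h1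
  · rw [Int.cast_natCast]
    exact (int_nat m).mul (int_nat m)
  · rw [Int.cast_natCast, mul_inv_cancel₀ hm']
    exact isIntegral_one

theorem TU.cbrt {D : ℕ} (h : ¬ 3 ∣ D) : ThreeUnit (((((D : ℝ) ^ (1 / 3 : ℝ) : ℝ)) : ℂ)⁻¹) := by
  have hD : D ≠ 0 := by
    rintro rfl
    exact h (dvd_zero 3)
  have hpos : (0 : ℝ) < D := by exact_mod_cast Nat.pos_of_ne_zero hD
  set z : ℂ := (((D : ℝ) ^ (1 / 3 : ℝ) : ℝ) : ℂ) with hz
  have hz3 : z ^ 3 = (D : ℂ) := by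
    rw [hz, ← Complex.ofReal_pow, ← Real.rpow_natCast, ← Real.rpow_mul hpos.le]
    norm_num
  have hz0 : z ≠ 0 := by
    intro h0
    rw [h0] at hz3
    have : (D : ℂ) = 0 := by rw [← hz3]; simp
    exact hD (by exact_mod_cast this)
  have hzi : IsIntegral ℤ z := by
    refine ⟨X ^ 3 - C (D : ℤ), monic_X_pow_sub_C _ (by norm_num), ?_⟩
    rw [eval₂_sub, eval₂_pow, eval₂_X, eval₂_C, hz3]
    simp
  refine ⟨inv_ne_zero hz0, (D : ℤ), ?_, ?_, ?_⟩
  · have h1 : Nat.Coprime 3 D := (Nat.Prime.coprime_iff_not_dvd Nat.prime_three).2 h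
    exact_mod_cast Nat.isCoprime_iff_coprime.2 h1
  · have e : ((D : ℤ) : ℂ) * z⁻¹ = z ^ 2 := by
      rw [Int.cast_natCast, ← hz3]
      field_simp
    rw [e]
    exact hzi.pow 2
  · rw [inv_inv, Int.cast_natCast]
    exact (int_nat D).mul hzi

/-- the rational solutions of `y² + D y = x³` -/
theorem fin_set {D : ℕ} (hD : D ≠ 0) (h : Finite (EQ (WD D)).toAffine.Point) :
    {q : ℚ × ℚ | q.2 ^ 2 + (D : ℚ) * q.2 = q.1 ^ 3}.Finite := by
  have hDQ : (D : ℚ) ≠ 0 := by exact_mod_cast hD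
  have hns : ∀ x y : ℚ, y ^ 2 + (D : ℚ) * y = x ^ 3 → (EQ (WD D)).toAffine.Nonsingular x y := by
    intro x y hxy
    have he : (EQ (WD D)).toAffine.Equation x y :=
      (Pool.Agent.Y703.CX.eqn_iff (D : ℤ) x y).2 (by exact_mod_cast hxy)
    refine (WeierstrassCurve.Affine.equation_iff_nonsingular_of_Δ_ne_zero
      (W := (EQ (WD D)).toAffine) ?_).1 he
    have : (EQ (WD D)).Δ = ((WD D).Δ : ℚ) := by
      rw [WeierstrassCurve.map_Δ]
      rfl
    show (EQ (WD D)).Δ ≠ 0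
    rw [this, Pool.Agent.Y703.CX.WD_disc]
    push_cast
    exact mul_ne_zero (by norm_num) (pow_ne_zero 4 hDQ)
  refine Set.finite_coe_iff.1 (Finite.of_injective
    (fun q : {q : ℚ × ℚ | q.2 ^ 2 + (D : ℚ) * q.2 = q.1 ^ 3} =>
    (WeierstrassCurve.Affine.Point.some q.1.1 q.1.2 (hns _ _ q.2) :
      (EQ (WD D)).toAffine.Point)) ?_)
  rintro ⟨⟨x, y⟩, h1⟩ ⟨⟨x', y'⟩, h2⟩ h3
  simp only [WeierstrassCurve.Affine.Point.some.injEq] at h3
  obtain ⟨g1, g2⟩ := h3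
  subst g1; subst g2; rfl

/-- the same for `D c³` -/
theorem fin_cube {D c M : ℕ} (hc : c ≠ 0) (hM : M = D * c ^ 3)
    (h : {q : ℚ × ℚ | q.2 ^ 2 + (D : ℚ) * q.2 = q.1 ^ 3}.Finite) :
    {q : ℚ × ℚ | q.2 ^ 2 + (M : ℚ) * q.2 = q.1 ^ 3}.Finite := by
  have hc' : (c : ℚ) ≠ 0 := by exact_mod_cast hc
  refine Set.Finite.of_injOn (f := fun q : ℚ × ℚ => (q.1 / (c : ℚ) ^ 2, q.2 / (c : ℚ) ^ 3)) ?_ ?_ h
  · rintro ⟨x, y⟩ hq
    have hq : y ^ 2 + (M : ℚ) * y = x ^ 3 := hq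
    show (y / (c : ℚ) ^ 3) ^ 2 + (D : ℚ) * (y / (c : ℚ) ^ 3) = (x / (c : ℚ) ^ 2) ^ 3
    rw [hM] at hq
    push_cast at hq
    field_simp
    linear_combination hq
  · rintro ⟨x, y⟩ _ ⟨x', y'⟩ _ he
    simp only [Prod.mk.injEq] at he
    obtain ⟨e1, e2⟩ := he
    have f1 := (div_left_inj' (pow_ne_zero 2 hc')).1 e1
    have f2 := (div_left_inj' (pow_ne_zero 3 hc')).1 e2
    rw [f1, f2]

/-- one curve -/
theorem one_curve {D : ℕ} (hC : Cls D) (hN : NoSplit D) :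
    ∃ f : ℂ → ℂ, ∃ u : ℂ, IsL (WD D) f ∧ ThreeUnit u ∧
      f 1 = u * ((Om0 : ℂ) * 3 ^ D.primeFactors.card / 9) ∧
      {q : ℚ × ℚ | q.2 ^ 2 + (D : ℚ) * q.2 = q.1 ^ 3}.Finite := by
  obtain ⟨-, f, hf, u, hu, -, h1, h2, -⟩ := Pool.Agent.Y703.CT.one Pool.Agent.Y737.CT.even
    Pool.Agent.Y703.CT.cnv hC
  have hT := h2.2 hN
  have hU := h1.2 hN
  have hB := hC.1
  obtain ⟨m, hm3, hm⟩ := Pool.Agent.Y145.CT.tamThm Pool.Agent.Y809.BSD14.t_E0 D hB
  have hper := Pool.Agent.Y333.CT.per D (Nat.pos_of_ne_zero hB.1)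
  refine ⟨f, u * m * ((((D : ℝ) ^ (1 / 3 : ℝ) : ℝ) : ℂ)⁻¹), hf,
    TU.mul (TU.mul hU (TU.nat hm3)) (TU.cbrt hB.2.1), ?_, fin_set hB.1 hT.1⟩
  rw [hu, hper, hm]
  unfold Om0
  push_cast
  rw [div_eq_mul_inv _ (((D : ℝ) ^ (1 / 3 : ℝ) : ℝ) : ℂ)]
  ring

/-! ### algebraic numbers -/

theorem alg_of_tu {u : ℂ} (h : ThreeUnit u) : IsAlgebraic ℚ u := by
  obtain ⟨-, n, hn, h1, -⟩ := h
  have hn0 : n ≠ 0 := by
    rintro rfl
    have := isCoprime_zero_right.1 hn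
    exact absurd (Int.isUnit_iff.1 this) (by norm_num)
  have hn' : (n : ℂ) ≠ 0 := by exact_mod_cast hn0
  have h2 : IsAlgebraic ℤ ((n : ℂ) * u) := h1.isAlgebraic
  have h3 : IsAlgebraic ℚ ((n : ℂ) * u) := h2.extendScalars (Int.cast_injective)
  have h4 : IsAlgebraic ℚ ((n : ℂ)⁻¹) := by
    have := isAlgebraic_algebraMap (R := ℚ) (A := ℂ) ((n : ℚ)⁻¹)
    simpa using this
  have e : u = (n : ℂ)⁻¹ * ((n : ℂ) * u) := by
    rw [← mul_assoc, inv_mul_cancel₀ hn', one_mul]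
  rw [e]
  exact h4.mul h3

theorem alg_prod {ι : Type} (s : Finset ι) (u : ι → ℂ) (h : ∀ i ∈ s, IsAlgebraic ℚ (u i)) :
    IsAlgebraic ℚ (∏ i ∈ s, u i) := by
  classical
  induction s using Finset.induction_on with
  | empty => rw [prod_empty]; exact isAlgebraic_one
  | insert i s hi ih =>
    rw [prod_insert hi]
    exact (h i (mem_insert_self i s)).mul (ih fun j hj => h j (mem_insert_of_mem hj))

theorem alg_rat (x : ℚ) : IsAlgebraic ℚ (x : ℂ) := by
  have := isAlgebraic_algebraMap (R := ℚ) (A := ℂ) x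
  simpa using this

theorem ef_one_alg (D p : ℕ) : IsAlgebraic ℚ (ef D p 1) := by
  have e : ef D p 1 = ((1 - (ap (WD D) p : ℚ) * (p : ℚ)⁻¹ +
      (if (p : ℤ) ∣ (WD D).Δ then 0 else (p : ℚ)⁻¹) : ℚ) : ℂ) := by
    unfold ef
    have e1 : (1 - 2 * 1 : ℂ) = -1 := by norm_num
    rw [e1, Complex.cpow_neg_one]
    split_ifs <;> push_cast <;> rfl
  rw [e]
  exact alg_rat _

/-- **General coefficients.** -/
theorem general {N r : ℕ} (a : Fin N → ℕ) (ha : ∀ i, a i ≠ 0)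
    (hg : ∀ T : Finset (Fin N), T.card = r → ∃ D c : ℕ, Cls D ∧ NoSplit D ∧ MT a T = D * c ^ 3) :
    (∃ F : ℂ → ℂ, Differentiable ℂ F ∧
      (∀ s : ℂ, (r : ℝ) + 3 / 2 < s.re →
        HasProd (fun p : {p : ℕ // p.Prime ∧ ¬ p ∣ 3 * ∏ i, a i} =>
          (aeval ((p.1 : ℂ) ^ (-s)) (PP N r a p.1))⁻¹) (F s)) ∧
      ∃ u : ℂ, u ≠ 0 ∧ IsAlgebraic ℚ u ∧ F (r + 1) = u * (Om0 : ℂ) ^ N.choose r) ∧
    ∀ T : Finset (Fin N), T.card = r →
      {q : ℚ × ℚ | q.2 ^ 2 + (MT a T : ℚ) * q.2 = q.1 ^ 3}.Finite := by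
  classical
  have hg' : ∀ T : Finset (Fin N), ∃ (D c : ℕ) (f : ℂ → ℂ) (u : ℂ), T.card = r →
      MT a T = D * c ^ 3 ∧ IsL (WD D) f ∧ ThreeUnit u ∧
      f 1 = u * ((Om0 : ℂ) * 3 ^ D.primeFactors.card / 9) ∧
      {q : ℚ × ℚ | q.2 ^ 2 + (MT a T : ℚ) * q.2 = q.1 ^ 3}.Finite := by
    intro T
    by_cases hT : T.card = r
    · obtain ⟨D, c, h1, h2, h3⟩ := hg T hT
      obtain ⟨f, u, k1, k2, k3, k4⟩ := one_curve h1 h2
      have hc : c ≠ 0 := by
        rintro rfl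
        have h0 : MT a T ≠ 0 := mul_ne_zero (prod_ne_zero_iff.2 fun i _ => ha i)
          (prod_ne_zero_iff.2 fun i _ => ha i)
        exact h0 (by rw [h3]; simp)
      exact ⟨D, c, f, u, fun _ => ⟨h3, k1, k2, k3, fin_cube hc h3 k4⟩⟩
    · exact ⟨0, 0, 0, 0, fun h => absurd h hT⟩
  choose D c f u hall using hg'
  have hcard : ∀ T ∈ powersetCard r (univ : Finset (Fin N)), T.card = r := fun T hT =>
    (mem_powersetCard.1 hT).2
  obtain ⟨B, hB, hd, hp⟩ := lfun a ha D c f (fun T hT => (hall T (hcard T hT)).1)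
    (fun T hT => (hall T (hcard T hT)).2.1)
  refine ⟨⟨_, hd, hp, (∏ T ∈ powersetCard r univ, (u T * (3 ^ (D T).primeFactors.card / 9))) *
    ∏ p ∈ B, ∏ T ∈ powersetCard r univ, ef (D T) p 1, ?_, ?_, ?_⟩, fun T hT => (hall T hT).2.2.2.2⟩
  · refine mul_ne_zero (prod_ne_zero_iff.2 fun T hT => ?_) (prod_ne_zero_iff.2 fun p _ =>
      prod_ne_zero_iff.2 fun T _ => ef_ne p.2 (by norm_num))
    have hu := (hall T (hcard T hT)).2.2.1.1
    have : (3 : ℂ) ^ (D T).primeFactors.card / 9 ≠ 0 :=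
      div_ne_zero (pow_ne_zero _ (by norm_num)) (by norm_num)
    exact mul_ne_zero hu this
  · refine IsAlgebraic.mul (alg_prod _ _ fun T hT => ?_) (alg_prod _ _ fun p _ =>
      alg_prod _ _ fun T _ => ef_one_alg _ _)
    refine (alg_of_tu (hall T (hcard T hT)).2.2.1).mul ?_
    have := alg_rat ((3 : ℚ) ^ (D T).primeFactors.card / 9)
    push_cast at this
    exact this
  · have e : ((r : ℂ) + 1 - r) = 1 := by ring
    show (∏ T ∈ powersetCard r univ, f T ((r : ℂ) + 1 - r)) *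
      ∏ p ∈ B, ∏ T ∈ powersetCard r univ, ef (D T) p ((r : ℂ) + 1 - r) = _
    rw [e, prod_congr rfl fun T hT => (hall T (hcard T hT)).2.2.2.1]
    have e2 : ∏ T ∈ powersetCard r (univ : Finset (Fin N)),
        u T * ((Om0 : ℂ) * 3 ^ (D T).primeFactors.card / 9) =
        (∏ T ∈ powersetCard r (univ : Finset (Fin N)), (u T * (3 ^ (D T).primeFactors.card / 9))) *
          (Om0 : ℂ) ^ N.choose r := by
      have e3 : (Om0 : ℂ) ^ N.choose r = ∏ T ∈ powersetCard r (univ : Finset (Fin N)), (Om0 : ℂ) := by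
        rw [prod_const, card_powersetCard, card_univ, Fintype.card_fin]
      rw [e3, ← prod_mul_distrib]
      exact prod_congr rfl fun T _ => by ring
    rw [e2]
    ring

/-- the coefficients `1, …, 1, D` -/
def fam (N : ℕ) (D : ℕ) (i : Fin N) : ℕ := if i.val + 1 = N then D else 1

theorem fam_prod {N : ℕ} (hN : 0 < N) (D : ℕ) (T : Finset (Fin N)) :
    ∏ i ∈ T, fam N D i = if (⟨N - 1, by omega⟩ : Fin N) ∈ T then D else 1 := by
  classical
  have h1 : ∀ i : Fin N, fam N D i = if i = ⟨N - 1, by omega⟩ then D else 1 := by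
    intro i
    unfold fam
    congr 1
    rw [Fin.ext_iff]
    simp only [eq_iff_iff]
    omega
  rw [prod_congr rfl fun i _ => h1 i, prod_ite_eq']

/-- **The family `x_0³ + … + x_n³ + D x_{n+1}³ = 0`.** -/
theorem family {N r : ℕ} (hN : 0 < N) {D : ℕ} (hC : Cls D) (hS : NoSplit D) :
    (∃ F : ℂ → ℂ, Differentiable ℂ F ∧
      (∀ s : ℂ, (r : ℝ) + 3 / 2 < s.re →
        HasProd (fun p : {p : ℕ // p.Prime ∧ ¬ p ∣ 3 * ∏ i, fam N D i} =>
          (aeval ((p.1 : ℂ) ^ (-s)) (PP N r (fam N D) p.1))⁻¹) (F s)) ∧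
      ∃ u : ℂ, ThreeUnit u ∧
        F (r + 1) = u * ((Om0 : ℂ) * 3 ^ D.primeFactors.card / 9) ^ N.choose r) ∧
    ∀ T : Finset (Fin N), T.card = r →
      {q : ℚ × ℚ | q.2 ^ 2 + (MT (fam N D) T : ℚ) * q.2 = q.1 ^ 3}.Finite := by
  classical
  have hcf := cf_of_cls hC
  obtain ⟨c, hc0, hc⟩ := sq_eq hcf
  obtain ⟨f1, u1, a1, a2, a3, a4⟩ := one_curve hC hS
  obtain ⟨f2, u2, b1, b2, b3, b4⟩ := one_curve (cls_du hC) (noSplit_du hC hS)
  rw [hcf.pf] at b3
  have ha : ∀ i, fam N D i ≠ 0 := by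
    intro i
    unfold fam
    split_ifs
    · exact hcf.1
    · exact one_ne_zero
  set l : Fin N := ⟨N - 1, by omega⟩ with hl
  have hprod : ∏ i, fam N D i = D := by rw [fam_prod hN, if_pos (mem_univ _)]
  have hM : ∀ T : Finset (Fin N), MT (fam N D) T =
      (if l ∈ T then du D else D) * (if l ∈ T then c else 1) ^ 3 := by
    intro T
    unfold MT
    rw [hprod, fam_prod hN]
    split_ifs
    · rw [← hc]; ring
    · ring
  obtain ⟨B, hB, hd, hp⟩ := lfun (r := r) (fam N D) ha (fun T => if l ∈ T then du D else D)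
    (fun T => if l ∈ T then c else 1) (fun T => if l ∈ T then f2 else f1) (fun T _ => hM T)
    (fun T _ => by split_ifs; exacts [b1, a1])
  refine ⟨⟨_, hd, hp, ∏ T ∈ powersetCard r (univ : Finset (Fin N)), (if l ∈ T then u2 else u1),
    TU.prod _ _ fun T _ => by split_ifs; exacts [b2, a2], ?_⟩, fun T _ => ?_⟩
  · have e : ((r : ℂ) + 1 - r) = 1 := by ring
    show (∏ T ∈ powersetCard r univ, (if l ∈ T then f2 else f1) ((r : ℂ) + 1 - r)) *
      ∏ p ∈ B, ∏ T ∈ powersetCard r univ, ef (if l ∈ T then du D else D) p ((r : ℂ) + 1 - r) = _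
    rw [e]
    have e1 : ∏ p ∈ B, ∏ T ∈ powersetCard r (univ : Finset (Fin N)),
        ef (if l ∈ T then du D else D) p 1 = 1 := by
      refine prod_eq_one fun p hpB => prod_eq_one fun T _ => ?_
      have h1 := hB p hpB
      rw [hprod, p.2.dvd_mul] at h1
      have h2 : (p : ℕ) ∣ 3 * (if l ∈ T then du D else D) := by
        rw [p.2.dvd_mul]
        rcases h1 with h1 | h1
        · exact Or.inl h1
        · right
          split_ifs
          · exact (hcf.dvd_du p.2).2 h1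
          · exact h1
      unfold ef
      rw [if_pos ((dvd_disc p.2).2 h2), Pool.Agent.Y703.CX.ap_bad p.2 (by exact_mod_cast h2)]
      simp
    rw [e1, mul_one]
    have e3 : ((Om0 : ℂ) * 3 ^ D.primeFactors.card / 9) ^ N.choose r =
        ∏ T ∈ powersetCard r (univ : Finset (Fin N)), ((Om0 : ℂ) * 3 ^ D.primeFactors.card / 9) := by
      rw [prod_const, card_powersetCard, card_univ, Fintype.card_fin]
    rw [e3, ← prod_mul_distrib]
    refine prod_congr rfl fun T _ => ?_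
    split_ifs
    · exact b3
    · exact a3
  · refine fin_cube (D := if l ∈ T then du D else D) (c := if l ∈ T then c else 1) ?_ (hM T) ?_
    · split_ifs
      · exact hc0
      · exact one_ne_zero
    · split_ifs
      · exact b4
      · exact a4

end Pool.Agent.H733.CB
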