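import Pool.Agent.H733.CB.Loc
import Pool.Agent.Y703.CT.Defs

/-!
# Polynomials with constant coefficient `1` and the power sums of the inverse roots
-/

set_option autoImplicit false
set_option linter.unusedSectionVars false
set_option linter.style.haveILetI false

namespace Pool.Agent.H733.CB

open Finset Polynomial

/-- the power sum of the inverse roots -/
noncomputable def ps (P : ℤ[X]) (k : ℕ) : ℂ :=
  (((P.map (Int.castRingHom ℂ)).reverse.roots).map (fun z => z ^ k)).sum

theorem rev_lin {z : ℂ} (hz : z ≠ 0) : (1 - C z * X : ℂ[X]).reverse = X - C z := by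
  have e : (1 - C z * X : ℂ[X]) = C (-z) * X + C 1 := by
    rw [C_neg, C_1]; ring
  rw [e, reverse_add_C, natDegree_C_mul_X _ (neg_ne_zero.2 hz), reverse_mul_X, reverse_C, C_1, C_neg]
  ring

theorem rev_prod (s : Multiset ℂ) (hs : ∀ z ∈ s, z ≠ 0) :
    ((s.map (fun z => (1 - C z * X : ℂ[X]))).prod).reverse =
      (s.map (fun z => (X - C z : ℂ[X]))).prod := by
  induction s using Multiset.induction_on with
  | empty =>
    rw [Multiset.map_zero, Multiset.map_zero, Multiset.prod_zero, ← C_1, reverse_C, C_1]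
  | cons a s ih =>
    rw [Multiset.map_cons, Multiset.prod_cons, Multiset.map_cons, Multiset.prod_cons,
      reverse_mul_of_domain, rev_lin (hs a (Multiset.mem_cons_self a s)),
      ih fun z hz => hs z (Multiset.mem_cons_of_mem hz)]

theorem roots_rev (s : Multiset ℂ) (hs : ∀ z ∈ s, z ≠ 0) :
    ((s.map (fun z => (1 - C z * X : ℂ[X]))).prod).reverse.roots = s := by
  rw [rev_prod s hs, roots_multiset_prod_X_sub_C]

theorem ms_unique (R S : Multiset ℂ) (hR : ∀ z ∈ R, z ≠ 0) (hS : ∀ z ∈ S, z ≠ 0)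
    (h : ∀ k : ℕ, 1 ≤ k → (R.map (fun z => z ^ k)).sum = (S.map (fun z => z ^ k)).sum) : R = S := by
  classical
  have h1 : ∀ g : ℂ[X], (R.map (fun z => (X * g).eval z)).sum = (S.map (fun z => (X * g).eval z)).sum := by
    intro g
    induction g using Polynomial.induction_on' with
    | add p q hp hq =>
      simp only [mul_add, eval_add]
      rw [Multiset.sum_map_add, Multiset.sum_map_add, hp, hq]
    | monomial n a =>
      have e : ∀ z : ℂ, (X * monomial n a).eval z = a * z ^ (n + 1) := by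
        intro z
        rw [eval_mul, eval_X, eval_monomial]
        ring
      simp only [e]
      rw [Multiset.sum_map_mul_left, Multiset.sum_map_mul_left, h (n + 1) (by omega)]
  ext z
  by_cases hz : z ∈ R + S
  · have hz0 : z ≠ 0 := by
      rcases Multiset.mem_add.1 hz with h2 | h2
      · exact hR z h2
      · exact hS z h2
    set T := (R + S).toFinset.erase z with hT
    set g : ℂ[X] := ∏ w ∈ T, (X - C w) with hg
    have hgz : g.eval z ≠ 0 := by
      rw [hg, eval_prod, prod_ne_zero_iff]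
      intro w hw
      rw [eval_sub, eval_X, eval_C, sub_ne_zero]
      exact fun h3 => (mem_erase.1 hw).1 h3.symm
    have hgw : ∀ w ∈ R + S, w ≠ z → (X * g).eval w = 0 := by
      intro w hw hwz
      have h3 : w ∈ T := mem_erase.2 ⟨hwz, Multiset.mem_toFinset.2 hw⟩
      rw [eval_mul, hg, eval_prod, prod_eq_zero h3 (by rw [eval_sub, eval_X, eval_C, sub_self]),
        mul_zero]
    have h4 : ∀ U : Multiset ℂ, (∀ w ∈ U, w ∈ R + S) →
        (U.map (fun w => (X * g).eval w)).sum = (U.count z : ℂ) * (X * g).eval z := by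
      intro U hU
      rw [Finset.sum_multiset_map_count, Finset.sum_eq_single z]
      · rw [nsmul_eq_mul]
      · intro w hw hwz
        rw [hgw w (hU w (Multiset.mem_toFinset.1 hw)) hwz, smul_zero]
      · intro h5
        rw [Multiset.count_eq_zero.2 fun h6 => h5 (Multiset.mem_toFinset.2 h6), zero_smul]
    have h5 := h1 g
    rw [h4 R fun w hw => Multiset.mem_add.2 (Or.inl hw),
      h4 S fun w hw => Multiset.mem_add.2 (Or.inr hw)] at h5
    have h6 : (X * g).eval z ≠ 0 := by
      rw [eval_mul, eval_X]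
      exact mul_ne_zero hz0 hgz
    have h7 := mul_right_cancel₀ h6 h5
    exact_mod_cast h7
  · rw [Multiset.mem_add, not_or] at hz
    rw [Multiset.count_eq_zero.2 hz.1, Multiset.count_eq_zero.2 hz.2]

theorem rev_rev {A : ℂ[X]} (h : A.coeff 0 ≠ 0) : A.reverse.reverse = A := by
  have h1 : A.natTrailingDegree = 0 := natTrailingDegree_eq_zero.2 (Or.inr h)
  have h2 : A.reverse.natDegree = A.natDegree := by rw [reverse_natDegree, h1, Nat.sub_zero]
  have h3 : A.reverse.reverse = reflect A.reverse.natDegree (reflect A.natDegree A) := rfl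
  rw [h3, h2, reflect_reflect]

theorem poly_unique {P Q : ℤ[X]} (hP : P.coeff 0 = 1) (hQ : Q.coeff 0 = 1)
    (h : ∀ k : ℕ, 1 ≤ k → ps P k = ps Q k) : P = Q := by
  have key : ∀ R : ℤ[X], R.coeff 0 = 1 →
      (R.map (Int.castRingHom ℂ)).coeff 0 ≠ 0 ∧
      (∀ z ∈ (R.map (Int.castRingHom ℂ)).reverse.roots, z ≠ 0) ∧
      (R.map (Int.castRingHom ℂ)).reverse =
        ((R.map (Int.castRingHom ℂ)).reverse.roots.map (fun z => X - C z)).prod := by
    intro R hR
    set A := R.map (Int.castRingHom ℂ) with hA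
    have h0 : A.coeff 0 = 1 := by rw [hA, coeff_map, hR]; simp
    have h0' : A.coeff 0 ≠ 0 := by rw [h0]; exact one_ne_zero
    have hm : A.reverse.Monic := by
      unfold Monic
      rw [reverse_leadingCoeff, trailingCoeff, natTrailingDegree_eq_zero.2 (Or.inr h0'), h0]
    refine ⟨h0', ?_, (IsAlgClosed.splits A.reverse).eq_prod_roots_of_monic hm⟩
    rintro z hz rfl
    have h1 := (mem_roots hm.ne_zero).1 hz
    rw [IsRoot.def, ← coeff_zero_eq_eval_zero, coeff_zero_reverse, leadingCoeff_eq_zero] at h1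
    apply h0'
    rw [h1, coeff_zero]
  obtain ⟨p1, p2, p3⟩ := key P hP
  obtain ⟨q1, q2, q3⟩ := key Q hQ
  have h1 := ms_unique _ _ p2 q2 h
  have h2 : (P.map (Int.castRingHom ℂ)).reverse = (Q.map (Int.castRingHom ℂ)).reverse := by
    rw [p3, q3, h1]
  have h3 : P.map (Int.castRingHom ℂ) = Q.map (Int.castRingHom ℂ) := by
    rw [← rev_rev p1, ← rev_rev q1, h2]
  exact map_injective _ (by exact Int.cast_injective) h3

/-- the quadratic factor -/
noncomputable def QT (p : ℕ) (c : ℤ) (r : ℕ) : ℤ[X] :=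
  1 - C ((p : ℤ) ^ r * c) * X + C ((p : ℤ) ^ (2 * r + 1)) * X ^ 2

theorem QT_map {p : ℕ} {c : ℤ} {r : ℕ} {x y : ℂ} (h1 : x + y = c) (h2 : x * y = p) :
    (QT p c r).map (Int.castRingHom ℂ) =
      (1 - C ((p : ℂ) ^ r * x) * X) * (1 - C ((p : ℂ) ^ r * y) * X) := by
  have e1 : (C ((p : ℂ) ^ r * x) + C ((p : ℂ) ^ r * y) : ℂ[X]) = C ((p : ℂ) ^ r * c) := by
    rw [← C_add, ← mul_add, h1]
  have e2 : (C ((p : ℂ) ^ r * x) * C ((p : ℂ) ^ r * y) : ℂ[X]) = C ((p : ℂ) ^ (2 * r + 1)) := by
    rw [← C_mul]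
    congr 1
    rw [pow_succ, ← h2]
    ring
  unfold QT
  rw [Polynomial.map_add, Polynomial.map_sub, Polynomial.map_one, Polynomial.map_mul,
    Polynomial.map_mul, Polynomial.map_pow, map_X, map_C, map_C]
  have e3 : (Int.castRingHom ℂ) ((p : ℤ) ^ r * c) = (p : ℂ) ^ r * c := by simp
  have e4 : (Int.castRingHom ℂ) ((p : ℤ) ^ (2 * r + 1)) = (p : ℂ) ^ (2 * r + 1) := by simp
  rw [e3, e4, ← e1, ← e2]
  ring

/-- the trace of Frobenius of `y² + M y = x³` -/
noncomputable def tf (p : ℕ) (M : ZMod p) : ℤ :=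
  p - Nat.card {P : ZMod p × ZMod p // P.2 ^ 2 + M * P.2 = P.1 ^ 3}

/-- the polynomial of the hypersurface -/
noncomputable def PP (N r : ℕ) (a : Fin N → ℕ) (p : ℕ) : ℤ[X] :=
  ∏ T ∈ powersetCard r (univ : Finset (Fin N)), QT p (tf p (MT a T)) r

/-- the defining property of the polynomial -/
def IsFrob (N : ℕ) (a : Fin N → ℕ) (p : ℕ) (P : ℤ[X]) : Prop :=
  P.coeff 0 = 1 ∧ ∀ k : ℕ, 1 ≤ k → ∀ (K : Type) [Field K] [Fintype K], Fintype.card K = p ^ k →
    (cone N a K : ℂ) = ((p : ℂ) ^ k - 1) * (∑ i ∈ range (N - 1), ((p : ℂ) ^ k) ^ i - ps P k)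

theorem IsFrob.unique {N : ℕ} {a : Fin N → ℕ} {p : ℕ} (hp : p.Prime) {P Q : ℤ[X]}
    (hP : IsFrob N a p P) (hQ : IsFrob N a p Q) : P = Q := by
  haveI := Fact.mk hp
  refine poly_unique hP.1 hQ.1 fun k hk => ?_
  haveI : Finite (GaloisField p k) := Module.finite_of_finite (ZMod p)
  letI : Fintype (GaloisField p k) := Fintype.ofFinite _
  have hc : Fintype.card (GaloisField p k) = p ^ k := by
    rw [← Nat.card_eq_fintype_card]
    exact GaloisField.card p k (by omega)
  have h1 := hP.2 k hk (GaloisField p k) hc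
  have h2 := hQ.2 k hk (GaloisField p k) hc
  rw [h1] at h2
  have h3 : (p : ℂ) ^ k - 1 ≠ 0 := by
    rw [sub_ne_zero]
    exact_mod_cast (Nat.one_lt_pow (by omega) hp.one_lt).ne'
  have h4 := mul_left_cancel₀ h3 h2
  linear_combination -h4

theorem PP_frob {N r : ℕ} (hN : N = 2 * r + 3) (hr : r ≤ 2) (a : Fin N → ℕ) {p : ℕ} (hp : p.Prime)
    (h3 : p ≠ 3) (ha : ∀ i, ¬ p ∣ a i) : IsFrob N a p (PP N r a p) := by
  haveI := Fact.mk hp
  obtain ⟨α, β, h1, -, h2⟩ := loc p h3
  have hp0 : (p : ℂ) ≠ 0 := by exact_mod_cast hp.ne_zero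
  have hM : ∀ T : Finset (Fin N), ((MT a T : ℕ) : ZMod p) ≠ 0 := by
    intro T
    rw [Ne, ZMod.natCast_eq_zero_iff]
    unfold MT
    rw [hp.prime.dvd_mul, hp.prime.dvd_finsetProd_iff, hp.prime.dvd_finsetProd_iff]
    rintro (⟨i, -, hi⟩ | ⟨i, -, hi⟩)
    · exact ha i hi
    · exact ha i hi
  have hab : ∀ T : Finset (Fin N), α (MT a T) + β (MT a T) = (tf p (MT a T) : ℂ) ∧
      α (MT a T) * β (MT a T) = p := by
    intro T
    obtain ⟨k1, k2, -⟩ := h1 _ (hM T)
    refine ⟨?_, k2⟩
    rw [k1]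
    unfold tf
    push_cast
    rfl
  set s : Multiset ℂ := (powersetCard r (univ : Finset (Fin N))).val.bind fun T =>
    {(p : ℂ) ^ r * α (MT a T), (p : ℂ) ^ r * β (MT a T)} with hs
  have hsne : ∀ z ∈ s, z ≠ 0 := by
    intro z hz
    rw [hs, Multiset.mem_bind] at hz
    obtain ⟨T, -, hz⟩ := hz
    have hk := (hab T).2
    have hα : α (MT a T) ≠ 0 := by
      intro h0
      rw [h0, zero_mul] at hk
      exact hp0 hk.symm
    have hβ : β (MT a T) ≠ 0 := by
      intro h0
      rw [h0, mul_zero] at hk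
      exact hp0 hk.symm
    simp only [Multiset.insert_eq_cons, Multiset.mem_cons, Multiset.mem_singleton] at hz
    rcases hz with rfl | rfl
    · exact mul_ne_zero (pow_ne_zero _ hp0) hα
    · exact mul_ne_zero (pow_ne_zero _ hp0) hβ
  have hmap : (PP N r a p).map (Int.castRingHom ℂ) =
      (s.map (fun z => (1 - C z * X : ℂ[X]))).prod := by
    rw [hs, Multiset.map_bind, Multiset.prod_bind, PP, Polynomial.map_prod]
    refine prod_congr rfl fun T _ => ?_
    rw [QT_map (hab T).1 (hab T).2]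
    simp
  constructor
  · rw [PP, coeff_zero_prod]
    refine prod_eq_one fun T _ => ?_
    simp [QT]
  · intro k _ K _ _ hK
    rw [h2 k K hK N r hN hr a ha]
    congr 2
    unfold ps
    rw [hmap, roots_rev s hsne, hs, Multiset.map_bind, Multiset.sum_bind, mul_sum]
    refine sum_congr rfl fun T _ => ?_
    simp only [Multiset.insert_eq_cons, Multiset.map_cons, Multiset.map_singleton,
      Multiset.sum_cons, Multiset.sum_singleton]
    rw [mul_pow, mul_pow, ← pow_mul, ← pow_mul, mul_comm k r]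
    ring

end Pool.Agent.H733.CB
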