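import Pool.Agent.H733.CB.Ext

/-!
# The cubic Gauss sum over the field with `p²` elements, `p ≡ 2` modulo `3`
-/

set_option autoImplicit false
set_option linter.unusedSectionVars false

namespace Pool.Agent.H733.CB

open Finset
open Pool.Agent.Y145.KS (psi psi_apply psi_ne_one)

theorem cube_bij {K : Type} [Field K] [Fintype K] (hp : Fintype.card K % 3 = 2) :
    Function.Bijective fun x : K => x ^ 3 := by
  have hinj : Function.Injective fun x : K => x ^ 3 := by
    intro x y hxy
    have hxy : x ^ 3 = y ^ 3 := hxy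
    obtain ⟨k, hk⟩ : ∃ k, Fintype.card K = 3 * k + 2 := ⟨Fintype.card K / 3, by omega⟩
    have h1 : ∀ z : K, z ^ (2 * Fintype.card K - 1) = z := by
      intro z
      have e : 2 * Fintype.card K - 1 = Fintype.card K + (Fintype.card K - 1) := by omega
      rw [e, pow_add, FiniteField.pow_card]
      rcases eq_or_ne z 0 with h | h
      · rw [h, zero_mul]
      · rw [FiniteField.pow_card_sub_one_eq_one z h, mul_one]
    have e : 2 * Fintype.card K - 1 = 3 * (2 * k + 1) := by omega
    rw [← h1 x, ← h1 y, e, pow_mul, pow_mul, hxy]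
  exact Finite.injective_iff_bijective.1 hinj

section

variable {p : ℕ} [Fact p.Prime] {F : Type} [Field F] [Fintype F] [Algebra (ZMod p) F]
  {χ : MulChar F ℂ}

theorem Cub.base (h : Cub χ) (hp : p % 3 = 2) {c : ZMod p} (hc : c ≠ 0) :
    χ (algebraMap (ZMod p) F c) = 1 := by
  obtain ⟨d, hd⟩ := (cube_bij (K := ZMod p) (by rw [ZMod.card]; exact hp)).2 c
  have hd : d ^ 3 = c := hd
  have hd0 : d ≠ 0 := by
    rintro rfl
    apply hc
    rw [← hd]
    simp
  rw [← hd, map_pow, map_pow]
  exact h.ap3 ((map_ne_zero _).2 hd0)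

theorem Cub.tr_zero (h : Cub χ) (hp : p % 3 = 2) (hF : Module.finrank (ZMod p) F = 2) {x : F}
    (hx : x ≠ 0) (ht : Algebra.trace (ZMod p) F x = 0) : χ x = 1 := by
  have h1 := FiniteField.algebraMap_trace_eq_sum_pow (ZMod p) F x
  have h2 := FiniteField.algebraMap_norm_eq_prod_pow (ZMod p) F x
  rw [hF, sum_range_succ, sum_range_succ, sum_range_zero, pow_zero, pow_one, pow_one, zero_add, ht,
    map_zero] at h1
  rw [hF, prod_range_succ, prod_range_succ, prod_range_zero, pow_zero, pow_one, pow_one,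
    one_mul] at h2
  have h3 : x ^ 2 = algebraMap (ZMod p) F (-Algebra.norm (ZMod p) x) := by
    rw [map_neg, h2]
    linear_combination -x * h1
  have h4 : -Algebra.norm (ZMod p) x ≠ 0 := by
    intro h5
    rw [h5, map_zero] at h3
    exact hx (pow_eq_zero_iff (two_ne_zero) |>.1 h3)
  have h5 : χ x ^ 2 = 1 := by
    rw [← map_pow, h3]
    exact h.base hp h4
  have h6 := h.ap3 hx
  linear_combination h6 - (χ x) * h5

/-- **the Gauss sum** -/
theorem Cub.gs_quad (h : Cub χ) (hp : p % 3 = 2) (hF : Module.finrank (ZMod p) F = 2)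
    {ψ : AddChar (ZMod p) ℂ} (hψ : ψ ≠ 1) : gaussSum χ (psi ψ F) = (p : ℂ) := by
  classical
  have hpp : p.Prime := Fact.out
  have hcard : Fintype.card F = p ^ 2 := by
    rw [Module.card_eq_pow_finrank (K := ZMod p) (V := F), hF, ZMod.card]
  have hp0 : (p : ℂ) ≠ 0 := by exact_mod_cast hpp.ne_zero
  have hψF := psi_ne_one hψ F
  -- orthogonality
  have horth : ∀ b : ZMod p, ∑ c : ZMod p, ψ (c * b) = if b = 0 then (p : ℂ) else 0 := by
    intro b
    have := AddChar.sum_mulShift b (AddChar.IsPrimitive.of_ne_one hψ)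
    rw [this]
    split_ifs <;> simp [ZMod.card]
  have htr : ∀ (c : ZMod p) (x : F), ψ (c * Algebra.trace (ZMod p) F x) =
      psi ψ F (algebraMap (ZMod p) F c * x) := by
    intro c x
    rw [psi_apply, ← Algebra.smul_def, map_smul, smul_eq_mul]
  -- the kernel of the trace
  set Z := univ.filter fun x : F => Algebra.trace (ZMod p) F x = 0 with hZ
  have hker : (Z.card : ℂ) = p := by
    have h1 : ∑ x : F, ∑ c : ZMod p, ψ (c * Algebra.trace (ZMod p) F x) = Z.card * p := by
      rw [sum_congr rfl fun x _ => horth _, ← sum_filter, sum_const, nsmul_eq_mul]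
    have h2 : ∑ x : F, ∑ c : ZMod p, ψ (c * Algebra.trace (ZMod p) F x) = (p : ℂ) ^ 2 := by
      rw [sum_comm, sum_eq_single (0 : ZMod p)]
      · simp [hcard]
      · intro c _ hc
        rw [sum_congr rfl fun x _ => htr c x]
        have h3 := AddChar.sum_mulShift (algebraMap (ZMod p) F c)
          (AddChar.IsPrimitive.of_ne_one hψF)
        rw [if_neg ((map_ne_zero _).2 hc), Nat.cast_zero] at h3
        rw [← h3]
        exact sum_congr rfl fun t _ => by rw [mul_comm]
      · intro h3
        exact absurd (mem_univ _) h3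
    rw [h1] at h2
    have h3 : ((Z.card : ℂ) - p) * p = 0 := by linear_combination h2
    exact sub_eq_zero.1 ((mul_eq_zero.1 h3).resolve_right hp0)
  -- the sum of the character over the kernel
  have hsum : ∑ x ∈ Z, χ x = (p : ℂ) - 1 := by
    have h0 : (0 : F) ∈ Z := mem_filter.2 ⟨mem_univ _, map_zero _⟩
    rw [← add_sum_erase Z _ h0, MulChar.map_zero, zero_add,
      sum_congr rfl fun x hx => h.tr_zero hp hF (mem_erase.1 hx).1
        (mem_filter.1 (mem_erase.1 hx).2).2, sum_const, card_erase_of_mem h0, nsmul_eq_mul, mul_one,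
      Nat.cast_sub (card_pos.2 ⟨_, h0⟩), hker, Nat.cast_one]
  -- the main sum
  have hmain : ∑ c : ZMod p, ∑ x : F, χ x * ψ (c * Algebra.trace (ZMod p) F x) =
      ((p : ℂ) - 1) * p := by
    rw [sum_comm]
    have h1 : ∀ x : F, ∑ c : ZMod p, χ x * ψ (c * Algebra.trace (ZMod p) F x) =
        if Algebra.trace (ZMod p) F x = 0 then χ x * p else 0 := by
      intro x
      rw [← mul_sum, horth]
      split_ifs <;> simp
    rw [sum_congr rfl fun x _ => h1 x, ← sum_filter, ← sum_mul, hsum]
  have hc : ∀ c : ZMod p, c ≠ 0 → ∑ x : F, χ x * ψ (c * Algebra.trace (ZMod p) F x) =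
      gaussSum χ (psi ψ F) := by
    intro c hc
    have h1 := gs_shift χ (psi ψ F) (u := algebraMap (ZMod p) F c) ((map_ne_zero _).2 hc)
    rw [h.inv_ap, h.base hp hc, one_pow, one_mul] at h1
    rw [← h1, gaussSum]
    refine sum_congr rfl fun x _ => ?_
    rw [htr, AddChar.mulShift_apply]
  have h0 : ∑ x : F, χ x * ψ ((0 : ZMod p) * Algebra.trace (ZMod p) F x) = 0 := by
    simp only [zero_mul, AddChar.map_zero_eq_one, mul_one]
    exact MulChar.sum_eq_zero_of_ne_one h.ne
  rw [← add_sum_erase univ _ (mem_univ (0 : ZMod p)), h0, zero_add,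
    sum_congr rfl fun c hc' => hc c (mem_erase.1 hc').1, sum_const, card_erase_of_mem (mem_univ _),
    card_univ, ZMod.card, nsmul_eq_mul, Nat.cast_sub hpp.one_lt.le, Nat.cast_one] at hmain
  have h3 : ((p : ℂ) - 1) * (gaussSum χ (psi ψ F) - p) = 0 := by linear_combination hmain
  have h4 : (p : ℂ) - 1 ≠ 0 := by
    rw [sub_ne_zero]
    exact_mod_cast hpp.one_lt.ne'
  exact sub_eq_zero.1 ((mul_eq_zero.1 h3).resolve_left h4)

end

end Pool.Agent.H733.CB
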