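import Pool.Agent.H733.CB.Cnt

/-!
# Points of diagonal cubic hypersurfaces over finite fields with `q ≡ 1` modulo `3` elements
-/

set_option autoImplicit false
set_option linter.unusedSectionVars false

namespace Pool.Agent.H733.CB

open Finset

section

variable {F : Type} [Field F] [Fintype F] {χ : MulChar F ℂ} {ψ : AddChar F ℂ}

theorem gs_shift (χ : MulChar F ℂ) (ψ : AddChar F ℂ) {u : F} (hu : u ≠ 0) :
    gaussSum χ (ψ.mulShift u) = χ⁻¹ u * gaussSum χ ψ := by
  have h1 := gaussSum_mulShift χ ψ (Units.mk0 u hu)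
  rw [Units.val_mk0] at h1
  rw [← h1, ← mul_assoc, ← MulChar.mul_apply, inv_mul_cancel, MulChar.one_apply (isUnit_iff_ne_zero.2 hu),
    one_mul]

theorem Cub.gs_mul (h : Cub χ) (hψ : ψ ≠ 1) :
    gaussSum χ ψ * gaussSum χ⁻¹ ψ = (Fintype.card F : ℂ) := by
  have h1 := gaussSum_mul_gaussSum_eq_card h.ne (AddChar.IsPrimitive.of_ne_one hψ)
  rw [AddChar.inv_mulShift, gs_shift _ _ (by simp : (-1 : F) ≠ 0), inv_inv, h.neg_one, one_mul] at h1
  exact h1

theorem Cub.sum_cube (h : Cub χ) (hψ : ψ ≠ 1) {u : F} (hu : u ≠ 0) :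
    ∑ x : F, ψ (u * x ^ 3) = χ⁻¹ u * gaussSum χ ψ + χ u * gaussSum χ⁻¹ ψ := by
  classical
  have h1 : ∑ x : F, ψ (u * x ^ 3) =
      ∑ t : F, (1 + χ t + χ⁻¹ t) * ψ (u * t) := by
    rw [← sum_fiberwise univ (fun x : F => x ^ 3) (fun x => ψ (u * x ^ 3))]
    refine sum_congr rfl fun t _ => ?_
    rw [sum_congr rfl (g := fun _ => ψ (u * t)) (fun x hx => by rw [(mem_filter.1 hx).2]),
      sum_const, nsmul_eq_mul, h.count t]
  have h2 : ∑ t : F, ψ (u * t) = 0 := by
    have h3 := AddChar.sum_mulShift u (AddChar.IsPrimitive.of_ne_one hψ)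
    rw [if_neg hu] at h3
    rw [Nat.cast_zero] at h3
    rw [← h3]
    exact sum_congr rfl fun t _ => by rw [mul_comm]
  have h4 := gs_shift χ ψ hu
  have h5 := gs_shift χ⁻¹ ψ hu
  rw [inv_inv] at h5
  rw [h1, ← h4, ← h5]
  simp only [gaussSum, AddChar.mulShift_apply, add_mul, sum_add_distrib, one_mul]
  rw [h2, zero_add]

theorem psi_sum (ψ : AddChar F ℂ) {ι : Type} (s : Finset ι) (f : ι → F) :
    ψ (∑ i ∈ s, f i) = ∏ i ∈ s, ψ (f i) := by
  classical
  induction s using Finset.induction_on with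
  | empty => simp
  | insert i s hi ih => rw [sum_insert hi, prod_insert hi, AddChar.map_add_eq_mul, ih]

/-- the sums over the additive character -/
theorem count_psi (hψ : ψ ≠ 1) [DecidableEq F] {N : ℕ} (a : Fin N → F) :
    (Fintype.card F : ℂ) * ((univ.filter fun x : Fin N → F => ∑ i, a i * x i ^ 3 = 0).card : ℂ) =
      ∑ u : F, ∏ i, ∑ t : F, ψ (u * a i * t ^ 3) := by
  have h1 : ∀ b : F, ∑ u : F, ψ (u * b) = if b = 0 then (Fintype.card F : ℂ) else 0 := by
    intro b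
    have := AddChar.sum_mulShift b (AddChar.IsPrimitive.of_ne_one hψ)
    rw [this]
    split_ifs <;> simp
  have h2 : ∀ u : F, ∏ i, ∑ t : F, ψ (u * a i * t ^ 3) =
      ∑ x : Fin N → F, ψ (u * ∑ i, a i * x i ^ 3) := by
    intro u
    rw [prod_univ_sum, Fintype.piFinset_univ]
    refine sum_congr rfl fun x _ => ?_
    rw [mul_sum, psi_sum]
    exact prod_congr rfl fun i _ => by rw [mul_assoc]
  rw [sum_congr rfl fun u _ => h2 u, sum_comm, sum_congr rfl fun x _ => h1 _, ← sum_filter,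
    sum_const, nsmul_eq_mul, mul_comm]

/-- `q` times the trace of Frobenius of `y² + M y = x³`, with the other sign -/
noncomputable def V (χ : MulChar F ℂ) (ψ : AddChar F ℂ) (M : F) : ℂ :=
  χ⁻¹ M * gaussSum χ ψ ^ 3 + χ M * gaussSum χ⁻¹ ψ ^ 3

theorem Cub.ap2 (h : Cub χ) {t : F} (ht : t ≠ 0) : χ⁻¹ t * χ⁻¹ t = χ t := by
  rw [h.inv_ap]
  linear_combination (χ t) * h.ap3 ht

theorem Cub.ap2' (h : Cub χ) (t : F) : χ t * χ t = χ⁻¹ t := by
  rw [h.inv_ap, pow_two]

theorem sum_char [DecidableEq F] (h : Cub χ) (m n : ℕ) :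
    ∑ u ∈ univ.filter (fun u : F => u ≠ 0), χ u ^ m * χ⁻¹ u ^ n =
      if (3 : ℤ) ∣ (m : ℤ) - n then (Fintype.card F : ℂ) - 1 else 0 := by
  have h1 : ∀ u : F, u ≠ 0 → χ u ^ m * χ⁻¹ u ^ n = (χ ^ m * χ⁻¹ ^ n) u := by
    intro u hu
    rw [MulChar.mul_apply]
    have e : u = ((Units.mk0 u hu : Fˣ) : F) := rfl
    rw [e, MulChar.pow_apply_coe, MulChar.pow_apply_coe]
  rw [sum_congr rfl fun u hu => h1 u (mem_filter.1 hu).2]
  have h2 : ∑ u ∈ univ.filter (fun u : F => u ≠ 0), (χ ^ m * χ⁻¹ ^ n) u =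
      ∑ u : F, (χ ^ m * χ⁻¹ ^ n) u := by
    refine sum_subset (filter_subset _ _) fun u _ hu => ?_
    have hu0 : u = 0 := by
      by_contra h3
      exact hu (mem_filter.2 ⟨mem_univ _, h3⟩)
    rw [hu0, MulChar.map_zero]
  rw [h2]
  have ho : orderOf χ = 3 := orderOf_eq_prime h.cube h.ne
  have h3 : χ ^ m * χ⁻¹ ^ n = 1 ↔ (3 : ℤ) ∣ (m : ℤ) - n := by
    rw [inv_pow, ← zpow_natCast χ m, ← zpow_natCast χ n, ← zpow_neg, ← zpow_add, ← sub_eq_add_neg,
      ← orderOf_dvd_iff_zpow_eq_one, ho]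
    rfl
  split_ifs with h4
  · rw [h3.2 h4, MulChar.sum_one_eq_card_units, Fintype.card_units, Nat.cast_sub Fintype.card_pos]
    simp
  · exact MulChar.sum_eq_zero_of_ne_one fun h5 => h4 (h3.1 h5)

/-- **the number of the points of a diagonal cubic hypersurface of dimension `1`, `3`, `5`** -/
theorem Cub.cone (h : Cub χ) (hψ : ψ ≠ 1) [DecidableEq F] {N r : ℕ} (hN : N = 2 * r + 3)
    (hr : r ≤ 2) (a : Fin N → F) (ha : ∀ i, a i ≠ 0) :
    (Fintype.card F : ℂ) * ((univ.filter fun x : Fin N → F => ∑ i, a i * x i ^ 3 = 0).card : ℂ) =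
      (Fintype.card F : ℂ) ^ N + ((Fintype.card F : ℂ) - 1) * (Fintype.card F : ℂ) ^ r *
        ∑ T ∈ powersetCard r univ, V χ ψ ((∏ i, a i) * ∏ i ∈ T, a i) := by
  classical
  set q : ℂ := (Fintype.card F : ℂ) with hq
  set G := gaussSum χ ψ with hG
  set H := gaussSum χ⁻¹ ψ with hH
  have hGH : G * H = q := h.gs_mul hψ
  rw [count_psi hψ]
  have h0 : ∏ i : Fin N, ∑ t : F, ψ (0 * a i * t ^ 3) = q ^ N := by
    simp [hq]
  have hsplit : ∑ u : F, ∏ i, ∑ t : F, ψ (u * a i * t ^ 3) = q ^ N +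
      ∑ u ∈ univ.filter (fun u : F => u ≠ 0), ∏ i, ∑ t : F, ψ (u * a i * t ^ 3) := by
    rw [← h0, ← sum_filter_add_sum_filter_not univ (fun u : F => u = 0)]
    congr 1
    rw [sum_filter, sum_ite_eq' univ (0 : F), if_pos (mem_univ _)]
  rw [hsplit]
  congr 1
  -- expand the product
  have h1 : ∀ u ∈ univ.filter (fun u : F => u ≠ 0), ∏ i, ∑ t : F, ψ (u * a i * t ^ 3) =
      ∑ S ∈ (univ : Finset (Fin N)).powerset, (χ u ^ S.card * χ⁻¹ u ^ (N - S.card)) *
        (H ^ S.card * G ^ (N - S.card) * ((∏ i ∈ S, χ (a i)) * ∏ i ∈ univ \ S, χ⁻¹ (a i))) := by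
    intro u hu
    have hu0 : u ≠ 0 := (mem_filter.1 hu).2
    rw [prod_congr rfl fun i _ => h.sum_cube hψ (mul_ne_zero hu0 (ha i)),
      prod_congr rfl fun i _ => add_comm (χ⁻¹ (u * a i) * G) (χ (u * a i) * H), prod_add]
    refine sum_congr rfl fun S _ => ?_
    have hc : (univ \ S).card = N - S.card := by
      rw [card_sdiff_of_subset (subset_univ S), card_univ, Fintype.card_fin]
    rw [prod_mul_distrib, prod_mul_distrib, prod_const, prod_const, hc,
      prod_congr rfl fun i _ => map_mul χ u (a i), prod_congr rfl fun i _ => map_mul χ⁻¹ u (a i),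
      prod_mul_distrib, prod_mul_distrib, prod_const, prod_const, hc]
    ring
  rw [sum_congr rfl h1, sum_comm]
  simp only [← sum_mul]
  rw [sum_congr rfl fun S _ => by rw [sum_char h]]
  rw [sum_powerset]
  rw [card_univ, Fintype.card_fin]
  -- only the two sizes
  have h2 : ∀ j ∈ range (N + 1), j ∉ ({r, r + 3} : Finset ℕ) →
      ∑ S ∈ powersetCard j (univ : Finset (Fin N)),
        (if (3 : ℤ) ∣ (S.card : ℤ) - (N - S.card : ℕ) then q - 1 else 0) *
        (H ^ S.card * G ^ (N - S.card) * ((∏ i ∈ S, χ (a i)) * ∏ i ∈ univ \ S, χ⁻¹ (a i))) = 0 := by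
    intro j hj hj2
    refine sum_eq_zero fun S hS => ?_
    have hS : S.card = j := (mem_powersetCard.1 hS).2
    rw [if_neg, zero_mul]
    rw [hS]
    simp only [mem_insert, mem_singleton, not_or] at hj2
    rw [mem_range] at hj
    omega
  have h3 : ({r, r + 3} : Finset ℕ) ⊆ range (N + 1) := by
    intro j hj
    simp only [mem_insert, mem_singleton] at hj
    rw [mem_range]
    omega
  rw [← sum_subset h3 h2, sum_pair (by omega)]
  have h4 : ∑ S ∈ powersetCard (r + 3) (univ : Finset (Fin N)),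
        (if (3 : ℤ) ∣ (S.card : ℤ) - (N - S.card : ℕ) then q - 1 else 0) *
        (H ^ S.card * G ^ (N - S.card) * ((∏ i ∈ S, χ (a i)) * ∏ i ∈ univ \ S, χ⁻¹ (a i))) =
      ∑ T ∈ powersetCard r (univ : Finset (Fin N)), (q - 1) *
        (H ^ (r + 3) * G ^ r * ((∏ i ∈ univ \ T, χ (a i)) * ∏ i ∈ T, χ⁻¹ (a i))) := by
    refine sum_nbij' (fun S => univ \ S) (fun S => univ \ S) ?_ ?_ ?_ ?_ ?_
    · intro S hS
      have hS : S.card = r + 3 := (mem_powersetCard.1 hS).2
      refine mem_powersetCard.2 ⟨subset_univ _, ?_⟩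
      rw [card_sdiff_of_subset (subset_univ S), card_univ, Fintype.card_fin, hS]
      omega
    · intro S hS
      have hS : S.card = r := (mem_powersetCard.1 hS).2
      refine mem_powersetCard.2 ⟨subset_univ _, ?_⟩
      rw [card_sdiff_of_subset (subset_univ S), card_univ, Fintype.card_fin, hS]
      omega
    · intro S _
      exact Finset.sdiff_sdiff_eq_self (subset_univ S)
    · intro S _
      exact Finset.sdiff_sdiff_eq_self (subset_univ S)
    · intro S hS
      have hS : S.card = r + 3 := (mem_powersetCard.1 hS).2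
      have e1 : N - (r + 3) = r := by omega
      rw [hS, if_pos (by rw [e1]; push_cast; omega), e1, Finset.sdiff_sdiff_eq_self (subset_univ S)]
  rw [h4, ← sum_add_distrib, mul_sum]
  refine sum_congr rfl fun T hT => ?_
  have hT : T.card = r := (mem_powersetCard.1 hT).2
  have e1 : N - r = r + 3 := by omega
  rw [hT, if_pos (by rw [e1]; push_cast; omega), e1]
  -- the characters
  have hA : ∏ i, a i = (∏ i ∈ T, a i) * ∏ i ∈ univ \ T, a i := by
    rw [mul_comm]
    exact (prod_sdiff (subset_univ T)).symm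
  have hT0 : ∏ i ∈ T, a i ≠ 0 := prod_ne_zero_iff.2 fun i _ => ha i
  have k1 : χ⁻¹ ((∏ i, a i) * ∏ i ∈ T, a i) = χ (∏ i ∈ T, a i) * χ⁻¹ (∏ i ∈ univ \ T, a i) := by
    rw [hA, map_mul, map_mul, ← h.ap2 hT0]
    ring
  have k2 : χ ((∏ i, a i) * ∏ i ∈ T, a i) = χ⁻¹ (∏ i ∈ T, a i) * χ (∏ i ∈ univ \ T, a i) := by
    rw [hA, map_mul, map_mul, ← h.ap2' (∏ i ∈ T, a i)]
    ring
  unfold V
  rw [k1, k2, map_prod, map_prod, map_prod, map_prod, ← hGH, ← hG, ← hH, mul_pow]
  ring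

end

end Pool.Agent.H733.CB
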